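import Pool.Agent.Lib.LUC.LRDefs

/-! # T1: change of the base ring of a log uniformization (finite extension of the base) -/

set_option autoImplicit false

namespace Pool.Agent.LCD

open Pool.Agent.LUC (LUrV)
open Pool.Agent.LUM (locV IsChart IsPar IsFrac)

universe u

theorem lurV_of_finite {S C K : Type u} [CommRing S] [CommRing C] [Field K] [Algebra S C]
    [Algebra S K] [Algebra C K] [IsScalarTower S C K] [Module.Finite S C]
    (V : ValuationSubring K) (h : LUrV S V) : LUrV C V := by
  intro A hfg hA hfrac T hT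
  have hfg0 : (A.restrictScalars S).FG := by
    rw [Subalgebra.fg_iff_finiteType] at hfg ⊢
    have h1 : Algebra.FiniteType S C := inferInstance
    have h2 : Algebra.FiniteType S A := Algebra.FiniteType.trans (S := C) h1 hfg
    exact h2
  obtain ⟨A0, g, ⟨hg, hg0, G, hG, hA0⟩, n, z, J, hz, hgz, hTz⟩ :=
    h (A.restrictScalars S) hfg0 hA hfrac T hT
  set A1 : Subalgebra C K := Algebra.adjoin C ((A : Set K) ∪ (fun x => x / g) '' (G : Set K)) with hA1
  have key : A1.restrictScalars S = A0 := by
    apply le_antisymm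
    · intro x hx
      have hx' : x ∈ A1 := hx
      rw [hA1] at hx'
      rw [hA0]
      refine Algebra.adjoin_induction ?_ ?_ ?_ ?_ hx'
      · intro y hy
        exact Algebra.subset_adjoin hy
      · intro c
        exact Algebra.subset_adjoin (Or.inl (A.algebraMap_mem c))
      · intro a b _ _ ha hb
        exact Subalgebra.add_mem _ ha hb
      · intro a b _ _ ha hb
        exact Subalgebra.mul_mem _ ha hb
    · rw [hA0]
      refine Algebra.adjoin_le ?_
      intro y hy
      exact Algebra.subset_adjoin hy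
  have hloc : (locV V A1).restrictScalars S = locV V A0 := by
    rw [← key]
    ext x
    exact Iff.rfl
  have hmem : ∀ x, x ∈ locV V A0 ↔ x ∈ locV V A1 := by
    intro x
    rw [← hloc]
    exact Iff.rfl
  refine ⟨A1, g, ⟨hg, hg0, G, hG, rfl⟩, n, z, J, ⟨?_, hz.ne, hz.pos, ?_, ?_⟩, ?_, ?_⟩
  · intro i
    exact (hmem _).1 (hz.mem i)
  · intro f hf hv
    obtain ⟨a, ha, hfa⟩ := hz.gen f ((hmem f).2 hf) hv
    exact ⟨a, fun i => (hmem _).1 (ha i), hfa⟩
  · have h1 := hz.dim
    rw [← hloc] at h1
    exact h1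
  · obtain ⟨e, w, hw, h1⟩ := hgz
    exact ⟨e, w, (hmem w).1 hw, h1⟩
  · intro t ht
    obtain ⟨e, w, hw, h1⟩ := hTz t ht
    exact ⟨e, w, (hmem w).1 hw, h1⟩

end Pool.Agent.LCD
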