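import Pool.Agent.Lib.LCD.P6
import Pool.Agent.Lib.LCD.T1
import Pool.Agent.Lib.LUC.N2

/-! # P7: log uniformization over complete local domains of characteristic p with residue field
finitely generated over a perfect field -/

set_option autoImplicit false

namespace Pool.Agent.LCD

open IsLocalRing
open Pool.Agent.H15JM (RVal)
open Pool.Agent.LU1 (VPos)
open Pool.Agent.LU2 (IsR1 IndVal IndRes Rel)
open Pool.Agent.LUC (LUrV LUs)

universe u

theorem lurV_complete_eq2 (p : ℕ) (hp : p.Prime) {k C K : Type u} [Field k] [PerfectField k]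
    [CommRing C] [IsDomain C] [CharP C p] [IsLocalRing C] [IsNoetherianRing C]
    [IsAdicComplete (maximalIdeal C) C] (ι : k →+* ResidueField C)
    (hfg : @Algebra.EssFiniteType k (ResidueField C) _ _ ι.toAlgebra) [Field K] [Algebra C K]
    [IsFractionRing C K] {m : ℕ} (hdim : ringKrullDim C = m) (V : ValuationSubring K)
    (hR : IsR1 V) (hC : ∀ c : C, algebraMap C K c ∈ V)
    (hmC : ∀ c ∈ maximalIdeal C, V.valuation (algebraMap C K c) < 1)
    (hm : maximalIdeal C ≠ ⊥) {r d : ℕ}
    (a : Fin r → K) (ha : IndVal V a) (b : Fin d → K) (hb : ∀ i, b i ∈ V)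
    (hb' : ∀ P : MvPolynomial (Fin d) C, V.valuation (MvPolynomial.aeval b P) < 1 →
      ∀ α, P.coeff α ∈ maximalIdeal C) (hdef : m ≤ r + d + 1) : LUrV C V := by
  classical
  have i0 : Fact p.Prime := ⟨hp⟩
  let κ : Type u := ResidueField C
  have iκ : CharP κ p := (CharP.charP_iff_prime_eq_zero hp).2 (by
    have h1 : (p : C) = 0 := CharP.cast_eq_zero C p
    have h2 := congrArg (residue C) h1
    rwa [map_natCast, map_zero] at h2)
  have ik : CharP k p := (RingHom.charP_iff ι ι.injective p).2 iκ
  obtain ⟨σk, hσk⟩ := exists_lift_perfect p C k ι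
  let i1 : Algebra k C := σk.toAlgebra
  -- the two algebra structures of the residue field over `k`
  have i2 : (ι.toAlgebra : Algebra k (ResidueField C)) =
      (inferInstance : Algebra k (ResidueField C)) := by
    refine Algebra.algebra_ext _ _ fun a => ?_
    exact (hσk a).symm
  have i3 : Algebra.EssFiniteType k (ResidueField C) := by
    rw [i2] at hfg
    exact hfg
  obtain ⟨σ, hσ, hσk', S, hσS, hfin, ⟨hreg, hSdim, hmax⟩, hsep⟩ :=
    exists_separable_base2 p k C hm hdim K
  have j1 : FaithfulSMul S C := by
    rw [faithfulSMul_iff_algebraMap_injective]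
    exact Subtype.val_injective
  have j2 : FaithfulSMul S K := by
    rw [faithfulSMul_iff_algebraMap_injective, IsScalarTower.algebraMap_eq S C K]
    exact (IsFractionRing.injective C K).comp Subtype.val_injective
  let L := FractionRing S
  let j3 : Algebra L K := FractionRing.liftAlgebra S K
  have j4 : IsScalarTower S L K := FractionRing.isScalarTower_liftAlgebra S K
  have j5 : FiniteDimensional L K := finiteDimensional_frac S C K
  have j6 : Algebra.IsSeparable L K := hsep j3 j4
  let j0 : Algebra κ S := (σ.codRestrict S hσS).toAlgebra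
  let j7 : Algebra κ K := ((algebraMap C K).comp σ).toAlgebra
  have j8 : IsScalarTower κ S K := IsScalarTower.of_algebraMap_eq fun _ => rfl
  have j9 : Algebra.EssFiniteType C K := Algebra.EssFiniteType.of_isLocalization _ (nonZeroDivisors C)
  have j10 : Algebra.EssFiniteType S K := Algebra.EssFiniteType.comp S C K
  have j11 : Algebra.IsAlgebraic L K := inferInstance
  have j12 : Algebra.IsAlgebraic S K :=
    (IsFractionRing.comap_isAlgebraic_iff (A := S) (C := K)).2 j11
  have hempty : IsTranscendenceBasis L ((↑) : (∅ : Set K) → K) := by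
    obtain ⟨s, hs⟩ := exists_isTranscendenceBasis L K
    have h1 : IsEmpty s := hs.isEmpty_iff_isAlgebraic.2 j11
    have h2 : s = ∅ := Set.isEmpty_coe_sort.1 h1
    rwa [h2] at hs
  have hsep' : Algebra.IsSeparable (IntermediateField.adjoin L (∅ : Set K)) K :=
    Algebra.isSeparable_tower_top_of_isSeparable L _ K
  have htr : Algebra.trdeg S K = 0 := trdeg_eq_zero_iff.2 j12
  have hS : LUrV S V := by
    refine LUC.lurV_eq2 p hp (k := k) (κ := κ) (S := S) (K := K) ?_ hSdim ∅ hempty hsep' V hR
      (fun s => hC s) (fun s hs => hmC _ ((hmax s).1 hs)) a ha b ⟨hb, ?_⟩ ?_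
    · intro s
      refine ⟨residue C s, (hmax _).2 ?_⟩
      rw [← residue_eq_zero_iff]
      change residue C ((s : C) - σ (residue C (s : C))) = 0
      rw [map_sub, hσ, sub_self]
    · intro P hP
      have h1 : MvPolynomial.aeval b (MvPolynomial.map σ P) = MvPolynomial.aeval b P := by
        rw [MvPolynomial.aeval_def, MvPolynomial.eval₂_map]
        rfl
      rw [← h1] at hP
      have h2 := hb' _ hP
      ext α
      rw [MvPolynomial.coeff_zero]
      have h3 := h2 α
      rw [MvPolynomial.coeff_map, ← residue_eq_zero_iff] at h3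
      rw [← hσ (MvPolynomial.coeff α P)]
      exact h3
    · rw [htr, zero_add]
      exact_mod_cast hdef
  exact lurV_of_finite (S := S) V hS

end Pool.Agent.LCD
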