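import Mathlib

/-! # A1: the coefficient field of a complete local ring of characteristic p with perfect residue field

Recipe. `C ⧸ m` is definitionally the residue field, of characteristic `p` (`CharP C p`, `charP_of_injective...` or `CharP.of...` via `(p : C/m) = 0`), and
`PerfectRing (ResidueField C) p`. Two possibilities.
(1) `Perfection.teichmuller p (maximalIdeal C) : Perfection (C ⧸ m) p →* C` (`Mathlib/RingTheory/Teichmuller.lean`) is additive in characteristic `p`
(`teichmuller_sModEq`/`teichmuller_spec`: `z ^ p ^ n` with `z` a lift of the `n`-th coefficient; `add_pow_char_pow`), the map `κ → Perfection κ p` is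
`a ↦ (a^(1/p^n))_n` (`Perfection.lift p κ κ (RingHom.id κ)`), compose; `mk_teichmuller` gives the residue.
(2) By hand: `σ a = lim (lift of a^(1/p^n))^(p^n)`. -/

set_option autoImplicit false

namespace Pool.Agent.LCD

open IsLocalRing

universe u

private theorem teichmuller_add' {p : ℕ} [Fact p.Prime] {R : Type u} [CommRing R] [CharP R p]
    (I : Ideal R) [CharP (R ⧸ I) p] [IsAdicComplete I R] (x y : Perfection (R ⧸ I) p) :
    Perfection.teichmuller p I (x + y) =
      Perfection.teichmuller p I x + Perfection.teichmuller p I y := by
  refine Perfection.teichmuller_spec fun n => ?_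
  refine ⟨(Perfection.coeff _ p n x).out + (Perfection.coeff _ p n y).out, by simp, ?_⟩
  rw [add_pow_char_pow]
  refine (Perfection.teichmuller_sModEq ?_).symm.add (Perfection.teichmuller_sModEq ?_).symm <;> simp

theorem exists_coeff_field (p : ℕ) [Fact p.Prime] (C : Type u) [CommRing C] [IsLocalRing C]
    [IsAdicComplete (maximalIdeal C) C] [CharP C p] [PerfectField (ResidueField C)] :
    ∃ σ : ResidueField C →+* C, ∀ a, residue C (σ a) = a := by
  have hκ : CharP (ResidueField C) p := by
    refine (CharP.charP_iff_prime_eq_zero (Fact.out : p.Prime)).2 ?_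
    rw [← map_natCast (residue C) p, CharP.cast_eq_zero, map_zero]
  have hQ : CharP (C ⧸ maximalIdeal C) p := hκ
  have he : ExpChar (ResidueField C) p := ExpChar.prime Fact.out
  have hpr : PerfectRing (ResidueField C) p := PerfectField.toPerfectRing p
  let T : Perfection (C ⧸ maximalIdeal C) p →+* C :=
    { Perfection.teichmuller p (maximalIdeal C) with
      map_zero' := Perfection.teichmuller_zero
      map_add' := teichmuller_add' (maximalIdeal C) }
  let l : ResidueField C →+* Perfection (C ⧸ maximalIdeal C) p :=
    Perfection.lift p (ResidueField C) (C ⧸ maximalIdeal C) (RingHom.id (ResidueField C))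
  refine ⟨T.comp l, fun a => ?_⟩
  have h1 : residue C (T (l a)) = Perfection.coeff (C ⧸ maximalIdeal C) p 0 (l a) :=
    Perfection.mk_teichmuller (l a)
  have h2 := (Perfection.lift p (ResidueField C) (C ⧸ maximalIdeal C)).symm_apply_apply
    (RingHom.id (ResidueField C))
  have h3 : Perfection.coeff (C ⧸ maximalIdeal C) p 0 (l a) = a :=
    congrArg (fun f => f a) (congrArg DFunLike.coe h2)
  exact h1.trans h3

end Pool.Agent.LCD
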