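import Mathlib

/-! # A2: complete for the maximal ideal implies complete for the smaller ideals

Hausdorff: Krull. Precomplete: a Cauchy sequence for `I` is Cauchy for the maximal ideal; its limit is also the limit for `I`, by Krull in the
quotients `C ⧸ I ^ n`. For the quotients, a Cauchy sequence is lifted. -/

set_option autoImplicit false

namespace Pool.Agent.LCD

open IsLocalRing

universe u

theorem isAdicComplete_of_le (C : Type u) [CommRing C] [IsLocalRing C] [IsNoetherianRing C]
    [IsAdicComplete (maximalIdeal C) C] (I : Ideal C) (hI : I ≤ maximalIdeal C) :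
    IsAdicComplete I C := by
  have hne : I ≠ ⊤ := fun h => (maximalIdeal.isMaximal C).ne_top (top_le_iff.1 (h ▸ hI))
  refine { haus' := (IsHausdorff.of_isLocalRing I C hne).haus', prec' := ?_ }
  intro f hf
  have hmono : ∀ n : ℕ, (I ^ n • ⊤ : Submodule C C) ≤ (maximalIdeal C ^ n • ⊤ : Submodule C C) :=
    fun n => Submodule.smul_mono_left (Ideal.pow_right_mono hI n)
  obtain ⟨L, hL⟩ := IsPrecomplete.prec' (I := maximalIdeal C) f
    (fun {m n} h => (hf h).mono (hmono m))
  refine ⟨L, fun n => ?_⟩
  rw [SModEq.sub_mem]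
  have h := IsHausdorff.haus (I := maximalIdeal C) (M := C ⧸ (I ^ n • ⊤ : Submodule C C))
    inferInstance (Submodule.Quotient.mk (f n - L)) ?_
  · rwa [Submodule.Quotient.mk_eq_zero] at h
  · intro N
    rw [SModEq.zero]
    have h1 : f n - f (max n N) ∈ (I ^ n • ⊤ : Submodule C C) :=
      SModEq.sub_mem.1 (hf (le_max_left n N))
    have h2 : f (max n N) - L ∈ (maximalIdeal C ^ N • ⊤ : Submodule C C) := by
      refine Submodule.smul_mono_left (Ideal.pow_le_pow_right (le_max_right n N)) ?_
      exact SModEq.sub_mem.1 (hL (max n N))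
    have h3 : (Submodule.Quotient.mk (f n - L) : C ⧸ (I ^ n • ⊤ : Submodule C C))
        = Submodule.Quotient.mk (f (max n N) - L) := by
      rw [Submodule.Quotient.eq]
      simpa using h1
    rw [h3]
    have h4 := Submodule.mem_map_of_mem (f := Submodule.mkQ (I ^ n • ⊤ : Submodule C C)) h2
    rw [Submodule.map_smul''] at h4
    exact Submodule.smul_mono le_rfl le_top h4

/-- The quotients of a complete local ring are complete. -/
theorem isAdicComplete_quotient (C : Type u) [CommRing C] [IsLocalRing C] [IsNoetherianRing C]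
    [IsAdicComplete (maximalIdeal C) C] (J : Ideal C) [IsLocalRing (C ⧸ J)] :
    IsAdicComplete (maximalIdeal (C ⧸ J)) (C ⧸ J) := by
  have hs : Function.Surjective (Ideal.Quotient.mk J) := Ideal.Quotient.mk_surjective
  have hmax : maximalIdeal (C ⧸ J) = (maximalIdeal C).map (Ideal.Quotient.mk J) := by
    rcases Ideal.map_eq_top_or_isMaximal_of_surjective _ hs (maximalIdeal.isMaximal C) with h | h
    · exfalso
      have hJ : J ≤ maximalIdeal C := le_maximalIdeal (fun h => by
        have := Ideal.Quotient.nontrivial_iff.1 (inferInstance : Nontrivial (C ⧸ J))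
        exact this h)
      have h2 := (Ideal.comap_map_of_surjective _ hs (maximalIdeal C))
      rw [h, Ideal.comap_top, ← RingHom.ker_eq_comap_bot, Ideal.mk_ker, sup_eq_left.2 hJ] at h2
      exact (maximalIdeal.isMaximal C).ne_top h2.symm
    · exact (eq_maximalIdeal h).symm
  refine { haus' := (inferInstance : IsHausdorff (maximalIdeal (C ⧸ J)) (C ⧸ J)).haus',
           prec' := ?_ }
  intro f hf
  have hd : ∀ n : ℕ, ∃ d : C, d ∈ maximalIdeal C ^ n ∧ Ideal.Quotient.mk J d = f (n + 1) - f n := by
    intro n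
    have h1 := SModEq.sub_mem.1 (hf (Nat.le_succ n)).symm
    rw [smul_eq_mul, Ideal.mul_top, hmax, ← Ideal.map_pow,
      Ideal.mem_map_iff_of_surjective _ hs] at h1
    exact h1
  choose d hd1 hd2 using hd
  obtain ⟨g0, hg0⟩ := hs (f 0)
  let g : ℕ → C := fun n => g0 + ∑ i ∈ Finset.range n, d i
  have hg : ∀ n, Ideal.Quotient.mk J (g n) = f n := by
    intro n
    induction n with
    | zero => simp [g, hg0]
    | succ n ih =>
      have : g (n + 1) = g n + d n := by simp only [g, Finset.sum_range_succ, add_assoc]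
      rw [this, map_add, ih, hd2]
      ring
  have hcau : ∀ {m n : ℕ}, m ≤ n →
      g m ≡ g n [SMOD (maximalIdeal C ^ m • ⊤ : Submodule C C)] := by
    intro m n hmn
    refine SModEq.symm (SModEq.sub_mem.2 ?_)
    rw [smul_eq_mul, Ideal.mul_top]
    have h1 : g n - g m = ∑ i ∈ Finset.Ico m n, d i := by
      simp only [g, Finset.sum_Ico_eq_sub _ hmn]
      ring
    rw [h1]
    exact Ideal.sum_mem _ fun i hi =>
      Ideal.pow_le_pow_right (Finset.mem_Ico.1 hi).1 (hd1 i)
  obtain ⟨L, hL⟩ := IsPrecomplete.prec' (I := maximalIdeal C) g hcau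
  refine ⟨Ideal.Quotient.mk J L, fun n => SModEq.sub_mem.2 ?_⟩
  have h1 := SModEq.sub_mem.1 (hL n)
  rw [smul_eq_mul, Ideal.mul_top] at h1 ⊢
  rw [hmax, ← Ideal.map_pow, ← hg n, ← map_sub]
  exact Ideal.mem_map_of_mem _ h1

end Pool.Agent.LCD
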