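import Pool.Agent.Lib.LCD.A1
import Pool.Agent.Lib.LCD.A2

/-! # A3: the coefficient ring of a complete local ring of residue characteristic p, perfect residue field

Recipe. `C` is `p`-adically complete (`isAdicComplete_of_le`), `p` is not a unit. `B = C ⧸ span {(p : C)} = ModP C p` is a local ring
(`IsLocalRing.of_surjective'`), of characteristic `p`, complete (`isAdicComplete_quotient`), with residue field `κ = ResidueField C` (the map
`ResidueField.map` of the local surjective ring hom `C → B` is bijective). `exists_coeff_field p B` gives a ring hom `τ : ResidueField B → B` with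
residue the identity, so `τ' : κ →+* B`. As `κ` is perfect, `τ'` lifts to `κ →+* PreTilt C p = Perfection B p` with `PreTilt.coeff 0 ∘ lift = τ'`
(`Perfection.lift p κ B`). Put `σ = (fontaineTheta C p).comp (WittVector.map lift)` (`Mathlib/RingTheory/Perfectoid/FontaineTheta.lean`);
`mk_fontaineTheta : Ideal.Quotient.mk 𝔭 (fontaineTheta R p x) = PreTilt.coeff 0 (x.coeff 0)` gives the residue. -/

set_option autoImplicit false

namespace Pool.Agent.LCD

open IsLocalRing

universe u

theorem exists_witt (p : ℕ) [Fact p.Prime] (C : Type u) [CommRing C] [IsLocalRing C]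
    [IsNoetherianRing C] [IsAdicComplete (maximalIdeal C) C] (hp : (p : C) ∈ maximalIdeal C)
    [PerfectField (ResidueField C)] :
    ∃ σ : WittVector p (ResidueField C) →+* C,
      ∀ a : WittVector p (ResidueField C), residue C (σ a) = a.coeff 0 := by
  classical
  have hle : Ideal.span {(p : C)} ≤ maximalIdeal C := by
    rw [Ideal.span_singleton_le_iff_mem]; exact hp
  have hI : IsAdicComplete (Ideal.span {(p : C)}) C := isAdicComplete_of_le C _ hle
  have hu : Fact ¬IsUnit (p : C) := ⟨fun h => (IsLocalRing.mem_maximalIdeal _).1 hp h⟩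
  have hsurj : Function.Surjective (Ideal.Quotient.mk (Ideal.span {(p : C)})) :=
    Ideal.Quotient.mk_surjective
  have hnt : Nontrivial (C ⧸ Ideal.span {(p : C)}) :=
    Ideal.Quotient.nontrivial_iff.2 (fun h => (maximalIdeal.isMaximal C).ne_top (top_le_iff.1 (h ▸ hle)))
  have hloc : IsLocalRing (C ⧸ Ideal.span {(p : C)}) :=
    IsLocalRing.of_surjective' (Ideal.Quotient.mk _) hsurj
  have hchar : CharP (C ⧸ Ideal.span {(p : C)}) p :=
    inferInstanceAs (CharP (ModP C p) p)
  have hcomp : IsAdicComplete (maximalIdeal (C ⧸ Ideal.span {(p : C)})) (C ⧸ Ideal.span {(p : C)}) :=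
    isAdicComplete_quotient C _
  have hlh : IsLocalHom (Ideal.Quotient.mk (Ideal.span {(p : C)})) := by
    refine ⟨fun a ha => ?_⟩
    by_contra hna
    have h1 : a ∈ maximalIdeal C := (mem_maximalIdeal a).2 hna
    obtain ⟨b, hb⟩ := ha.exists_right_inv
    obtain ⟨b', rfl⟩ := hsurj b
    rw [← map_mul, ← map_one (Ideal.Quotient.mk (Ideal.span {(p : C)})), Ideal.Quotient.eq] at hb
    have h2 : a * b' - 1 ∈ maximalIdeal C := hle hb
    have h3 : (1 : C) ∈ maximalIdeal C := by
      have h4 := (maximalIdeal C).mul_mem_right b' h1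
      have h5 := (maximalIdeal C).sub_mem h4 h2
      rwa [sub_sub_cancel] at h5
    exact (maximalIdeal.isMaximal C).ne_top ((Ideal.eq_top_iff_one _).2 h3)
  obtain ⟨r, hr⟩ : ∃ r : ResidueField C →+* ResidueField (C ⧸ Ideal.span {(p : C)}),
      ∀ c, r (residue C c) = residue _ (Ideal.Quotient.mk _ c) :=
    ⟨ResidueField.map (Ideal.Quotient.mk _), fun c => ResidueField.map_residue _ c⟩
  have hrs : Function.Surjective r := by
    intro y
    obtain ⟨y', rfl⟩ := residue_surjective y
    obtain ⟨c, rfl⟩ := hsurj y'
    exact ⟨residue C c, hr c⟩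
  have hri : Function.Injective r := r.injective
  have hperf : PerfectField (ResidueField (C ⧸ Ideal.span {(p : C)})) :=
    PerfectField.of_ringEquiv (RingEquiv.ofBijective r ⟨hri, hrs⟩)
  obtain ⟨τ, hτ⟩ := exists_coeff_field p (C ⧸ Ideal.span {(p : C)})
  have hcharκ : CharP (ResidueField C) p :=
    ((τ.comp r).charP_iff (τ.comp r).injective p).2 hchar
  have : ExpChar (ResidueField C) p := ExpChar.prime (Fact.out)
  have hpr : PerfectRing (ResidueField C) p := PerfectField.toPerfectRing p
  let l : ResidueField C →+* PreTilt C p := Perfection.lift p (ResidueField C) (ModP C p) (τ.comp r)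
  have hl : ∀ a, PreTilt.coeff 0 (l a) = τ (r a) := by
    intro a
    have h1 := (Perfection.lift p (ResidueField C) (ModP C p)).symm_apply_apply (τ.comp r)
    exact congrArg (fun f => f a) (congrArg DFunLike.coe h1)
  refine ⟨(WittVector.fontaineTheta C p).comp (WittVector.map l), fun a => ?_⟩
  apply hri
  have h1 : Ideal.Quotient.mk (Ideal.span {(p : C)}) (WittVector.fontaineTheta C p (WittVector.map l a)) =
      τ (r (a.coeff 0)) := by
    rw [WittVector.mk_fontaineTheta, WittVector.map_coeff]
    exact hl _
  rw [hr, RingHom.comp_apply, h1, hτ]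

end Pool.Agent.LCD
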