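import Mathlib

/-! # A4: the ring of Witt vectors as base ring

Recipe. `[CharP κ p]`, `PerfectRing κ p` (from `PerfectField`). `WittVector.isDiscreteValuationRing`, `WittVector` is a domain of characteristic 0,
complete (`WittVector/Complete.lean`), `WittVector.irreducible p`, `WittVector.mem_span_p_iff_coeff_zero_eq_zero`. The residue field is `κ`: the ring hom
`WittVector.constantCoeff : 𝕎 κ →+* κ` is surjective with kernel the maximal ideal `span {p}`; so `ResidueField (𝕎 κ) ≃+* κ`; transport
`CharP` and `PerfectField` along the ring equivalence (`PerfectRing` and surjectivity of the Frobenius, `PerfectRing.toPerfectField`). -/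

set_option autoImplicit false

namespace Pool.Agent.LCD

open IsLocalRing

universe u

theorem witt_base (p : ℕ) [Fact p.Prime] (κ : Type u) [Field κ] [CharP κ p] [PerfectField κ] :
    ∃ (_ : IsDomain (WittVector p κ)) (_ : IsDiscreteValuationRing (WittVector p κ)),
      CharZero (WittVector p κ) ∧ CharP (ResidueField (WittVector p κ)) p ∧
      PerfectField (ResidueField (WittVector p κ)) ∧ Irreducible (p : WittVector p κ) ∧
      IsAdicComplete (Ideal.span {(p : WittVector p κ)}) (WittVector p κ) ∧
      (∀ a : WittVector p κ, a.coeff 0 = 0 → ∃ b, a = p * b) ∧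
      ∀ c : κ, ∃ a : WittVector p κ, a.coeff 0 = c := by
  have he : ExpChar κ p := ExpChar.prime Fact.out
  have hpr : PerfectRing κ p := PerfectField.toPerfectRing p
  have hd : IsDomain (WittVector p κ) := inferInstance
  have hv : IsDiscreteValuationRing (WittVector p κ) := WittVector.isDiscreteValuationRing
  have hirr : Irreducible (p : WittVector p κ) := WittVector.irreducible p
  have h0 : CharZero (WittVector p κ) := by
    obtain ⟨q, hq⟩ := CharP.exists (WittVector p κ)
    rcases CharP.char_is_prime_or_zero (WittVector p κ) q with h | h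
    · exfalso
      have h1 : ((q : WittVector p κ)) = 0 := CharP.cast_eq_zero _ q
      have h2 : (q : κ) = 0 := by
        have h3 := congrArg (WittVector.constantCoeff (p := p) (R := κ)) h1
        rwa [map_natCast, map_zero] at h3
      have h4 : p ∣ q := (CharP.cast_eq_zero_iff κ p q).1 h2
      have h5 : p = q := (Nat.prime_dvd_prime_iff_eq Fact.out h).1 h4
      rw [← h5] at h1
      exact hirr.ne_zero h1
    · rw [h] at hq
      exact CharP.charP_to_charZero (WittVector p κ)
  have e : ResidueField (WittVector p κ) ≃+* κ :=
    (Ideal.quotEquivOfEq hirr.maximalIdeal_eq).trans WittVector.quotientPEquiv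
  refine ⟨hd, hv, h0, ?_, ?_, hirr, inferInstance, ?_, ?_⟩
  · exact (RingHom.charP_iff (e : ResidueField (WittVector p κ) →+* κ) e.injective p).2 inferInstance
  · exact PerfectField.of_ringEquiv e.symm
  · intro a ha
    have h1 := (WittVector.mem_span_p_iff_coeff_zero_eq_zero a).2 ha
    obtain ⟨b, hb⟩ := Ideal.mem_span_singleton.1 h1
    exact ⟨b, hb⟩
  · intro c
    obtain ⟨a, ha⟩ := WittVector.constantCoeff_surjective (R := κ) p c
    exact ⟨a, ha⟩

end Pool.Agent.LCD
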