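import Mathlib

/-! # B1: evaluation of power series in a complete ring

Recipe. `MvPowerSeries.toAdicCompletionAlgEquiv (Fin n) Λ : MvPowerSeries (Fin n) Λ ≃ₐ[Λ] AdicCompletion (MvPolynomial.idealOfVars (Fin n) Λ)
(MvPolynomial (Fin n) Λ)` (`Mathlib/RingTheory/MvPowerSeries/Equiv.lean`). The algebra hom `aeval x : MvPolynomial (Fin n) Λ → C` maps the ideal of the
variables into `I`, so induces `MvPolynomial / idealOfVars ^ N → C / I ^ N` (`Ideal.quotientMapₐ` or `Ideal.Quotient.factor...`), compose with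
`AdicCompletion.evalₐ`, then `IsAdicComplete.liftAlgHom` (or `liftRingHom`) of `Mathlib/RingTheory/AdicCompletion/RingHom.lean`. Value at `X i`:
`IsHausdorff` and `mk_liftAlgHom`. Another way: `MvPowerSeries.aeval` (topology). -/

set_option autoImplicit false

namespace Pool.Agent.LCD

universe u

theorem exists_powerSeries_map (Λ C : Type u) [CommRing Λ] [CommRing C] [Algebra Λ C]
    (I : Ideal C) [IsAdicComplete I C] {n : ℕ} (x : Fin n → C) (hx : ∀ i, x i ∈ I) :
    ∃ φ : MvPowerSeries (Fin n) Λ →ₐ[Λ] C, ∀ i, φ (MvPowerSeries.X i) = x i := by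
  classical
  have h0 : ∀ N, ∀ a ∈ MvPolynomial.idealOfVars (Fin n) Λ ^ N, MvPolynomial.aeval x a ∈ I ^ N := by
    intro N a ha
    have h1 : (MvPolynomial.idealOfVars (Fin n) Λ ^ N).map (MvPolynomial.aeval x).toRingHom ≤ I ^ N := by
      rw [Ideal.map_pow]
      refine Ideal.pow_right_mono ?_ N
      rw [MvPolynomial.idealOfVars, Ideal.map_span, Ideal.span_le]
      rintro _ ⟨_, ⟨i, rfl⟩, rfl⟩
      simpa using hx i
    exact h1 (Ideal.mem_map_of_mem _ ha)
  let f : ∀ N, MvPowerSeries (Fin n) Λ →ₐ[Λ] C ⧸ I ^ N := fun N =>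
    (Ideal.Quotient.liftₐ (MvPolynomial.idealOfVars (Fin n) Λ ^ N)
      ((Ideal.Quotient.mkₐ Λ (I ^ N)).comp (MvPolynomial.aeval x)) (fun a ha => by
        exact Ideal.Quotient.eq_zero_iff_mem.2 (h0 N a ha))).comp
    ((MvPowerSeries.truncTotalAlgHom (Fin n) Λ N).restrictScalars Λ)
  have hfa : ∀ N p, f N p = Ideal.Quotient.mk (I ^ N) (MvPolynomial.aeval x (p.truncTotal N)) := by
    intro N p
    rfl
  have hf : ∀ {m N : ℕ} (hle : m ≤ N),
      (Ideal.Quotient.factorₐ Λ (Ideal.pow_le_pow_right hle)).comp (f N) = f m := by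
    intro m N hle
    ext p
    rw [AlgHom.comp_apply, hfa, hfa, Ideal.Quotient.factorₐ_apply, Ideal.Quotient.factor_mk,
      Ideal.Quotient.mk_eq_mk_iff_sub_mem, ← map_sub]
    exact h0 m _ (MvPowerSeries.truncTotal_sub_truncTotal_mem_pow_idealOfVars hle le_rfl p)
  refine ⟨IsAdicComplete.liftAlgHom I f hf, fun i => ?_⟩
  rw [← sub_eq_zero]
  refine IsHausdorff.haus (I := I) inferInstance _ fun N => ?_
  rw [SModEq.zero, smul_eq_mul, Ideal.mul_top, ← Ideal.Quotient.mk_eq_mk_iff_sub_mem,
    IsAdicComplete.mk_liftAlgHom, hfa]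
  have h2 := (MvPowerSeries.truncTotalAlgHom (Fin n) Λ N).commutes (MvPolynomial.X i)
  have h3 : algebraMap (MvPolynomial (Fin n) Λ) (MvPowerSeries (Fin n) Λ) (MvPolynomial.X i) =
      MvPowerSeries.X i := MvPolynomial.coe_X i
  rw [h3] at h2
  have h4 : (MvPowerSeries.X i : MvPowerSeries (Fin n) Λ).truncTotal N - MvPolynomial.X i ∈
      MvPolynomial.idealOfVars (Fin n) Λ ^ N := Ideal.Quotient.mk_eq_mk_iff_sub_mem _ _ |>.1 h2
  have h5 := h0 N _ h4
  rw [map_sub, MvPolynomial.aeval_X] at h5
  exact (Ideal.Quotient.mk_eq_mk_iff_sub_mem _ _).2 h5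

/-- A power series is its constant term plus a combination of the variables. -/
theorem powerSeries_split (Λ : Type u) [CommRing Λ] {n : ℕ} (f : MvPowerSeries (Fin n) Λ) :
    ∃ (a : Λ) (g : Fin n → MvPowerSeries (Fin n) Λ),
      f = algebraMap Λ (MvPowerSeries (Fin n) Λ) a + ∑ i, MvPowerSeries.X i * g i := by
  classical
  -- the monomials whose first variable is `i`
  let g : Fin n → MvPowerSeries (Fin n) Λ := fun i β =>
    if ∀ j < i, β j = 0 then MvPowerSeries.coeff (β + Finsupp.single i 1) f else 0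
  have hg : ∀ i β, MvPowerSeries.coeff β (g i) =
      if ∀ j < i, β j = 0 then MvPowerSeries.coeff (β + Finsupp.single i 1) f else 0 :=
    fun i β => rfl
  refine ⟨MvPowerSeries.constantCoeff f, g, ?_⟩
  ext γ
  rw [map_add, map_sum, MvPowerSeries.algebraMap_apply, Algebra.algebraMap_self, RingHom.id_apply,
    MvPowerSeries.coeff_C]
  have hX : ∀ i, MvPowerSeries.coeff γ (MvPowerSeries.X i * g i) =
      if Finsupp.single i 1 ≤ γ then MvPowerSeries.coeff (γ - Finsupp.single i 1) (g i) else 0 := by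
    intro i
    rw [MvPowerSeries.X, MvPowerSeries.coeff_monomial_mul]
    simp only [one_mul]
  simp only [hX]
  by_cases h0 : γ = 0
  · rw [if_pos h0, Finset.sum_eq_zero, add_zero, h0, MvPowerSeries.coeff_zero_eq_constantCoeff_apply]
    intro i _
    rw [if_neg]
    intro h
    have := h i
    rw [h0] at this
    simp at this
  · rw [if_neg h0, zero_add]
    -- the first variable
    obtain ⟨i, hi, hmin⟩ : ∃ i, γ i ≠ 0 ∧ ∀ j < i, γ j = 0 := by
      have hne : (Finset.univ.filter fun i => γ i ≠ 0).Nonempty := by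
        by_contra hcon
        rw [Finset.not_nonempty_iff_eq_empty, Finset.filter_eq_empty_iff] at hcon
        refine h0 (Finsupp.ext fun i => ?_)
        have := hcon (Finset.mem_univ i)
        push Not at this
        exact this
      refine ⟨_, (Finset.mem_filter.1 (Finset.min'_mem _ hne)).2, fun j hj => ?_⟩
      by_contra hcon
      exact absurd (Finset.min'_le _ j (Finset.mem_filter.2 ⟨Finset.mem_univ _, hcon⟩)) (not_le.2 hj)
    have hle : ∀ j, γ j ≠ 0 → Finsupp.single j 1 ≤ γ := by
      intro j hj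
      rw [Finsupp.single_le_iff]
      omega
    rw [Finset.sum_eq_single i]
    · rw [if_pos (hle i hi), hg, if_pos, tsub_add_cancel_of_le (hle i hi)]
      intro j hj
      rw [Finsupp.tsub_apply, hmin j hj, zero_tsub]
    · intro j _ hji
      split_ifs with h
      · rw [hg, if_neg]
        intro hcon
        have hj : γ j ≠ 0 := by
          rw [Finsupp.single_le_iff] at h
          omega
        rcases lt_trichotomy i j with hij | hij | hij
        · have h1 := hcon i hij
          rw [Finsupp.tsub_apply, Finsupp.single_eq_of_ne hij.ne] at h1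
          omega
        · exact hji hij.symm
        · exact hj (hmin j hij)
      · rfl
    · intro h
      exact absurd (Finset.mem_univ _) h

end Pool.Agent.LCD
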