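import Pool.Agent.Lib.LCD.B1

/-! # Surjectivity of the evaluation of power series -/

set_option autoImplicit false

namespace Pool.Agent.LCD

universe u

theorem exists_powerSeries_surj (Λ A : Type u) [CommRing Λ] [CommRing A] [Algebra Λ A]
    (I : Ideal A) [IsAdicComplete I A] {n : ℕ} (x : Fin n → A)
    (hI : I = Ideal.span (Set.range x)) (hres : ∀ a : A, ∃ c : Λ, a - algebraMap Λ A c ∈ I) :
    ∃ φ : MvPowerSeries (Fin n) Λ →ₐ[Λ] A, (∀ i, φ (MvPowerSeries.X i) = x i) ∧
      Function.Surjective φ := by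
  obtain ⟨φ, hφ⟩ := exists_powerSeries_map Λ A I x (fun i => by
    rw [hI]; exact Ideal.subset_span ⟨i, rfl⟩)
  refine ⟨φ, hφ, ?_⟩
  let J : Ideal (MvPowerSeries (Fin n) Λ) := Ideal.span (Set.range MvPowerSeries.X)
  have h1 : J.map φ.toRingHom = I := by
    rw [Ideal.map_span, hI, ← Set.range_comp]
    congr 2
    funext i
    exact hφ i
  have h2 : IsHausdorff (J.map φ.toRingHom) A := by
    rw [h1]; infer_instance
  refine surjective_of_mk_map_comp_surjective (I := J) φ.toRingHom ?_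
  intro a
  obtain ⟨a, rfl⟩ := Ideal.Quotient.mk_surjective a
  obtain ⟨c, hc⟩ := hres a
  refine ⟨algebraMap Λ _ c, ?_⟩
  change Ideal.Quotient.mk _ (φ (algebraMap Λ _ c)) = _
  rw [AlgHom.commutes, eq_comm, Ideal.Quotient.mk_eq_mk_iff_sub_mem, h1]
  exact hc

end Pool.Agent.LCD
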