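import Mathlib

/-! # B2: finiteness from the quotient, for a complete base

Recipe. `finite_of_quotient`: take `m_1, …, m_t` in `M` whose classes generate `M ⧸ I • ⊤` over `P`, the map `f : (Fin t → P) → M` is linear,
`(mkQ _).comp f` is surjective, `Fin t → P` is `I`-precomplete (`IsPrecomplete` of a finite product: if there is no instance, coordinatewise by hand, a
Cauchy sequence in `Fin t → P` is Cauchy in each coordinate: `Submodule.mem_smul_top_iff`/`Ideal.mul_top`, `(I ^ n • ⊤ : Submodule P (Fin t → P))` is the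
set of the vectors with coordinates in `I ^ n`, see `Submodule.mem_ideal_smul_pi`, `Ideal.pi`, or use the equivalence
`AdicCompletion.piEquivFin`), `M` is Hausdorff: `surjective_of_mkQ_comp_surjective` (`AdicCompletion/Functoriality.lean`) gives `f` surjective.
`finite_quotient_of_pow_le`: `m = span of y_1, …, y_t`; for all `N` there is a finite set `F_N ⊆ C` such that all `c : C` are, modulo `m ^ N`, in the
`Λ`-span of `F_N`: `F_0 = ∅`, `F_(N+1) = {1} ∪ ⋃ y_i F_N` (`c = a + ∑ y_i c_i`, `c_i` by induction). -/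

set_option autoImplicit false

namespace Pool.Agent.LCD

open IsLocalRing

universe u

private theorem mem_pow_smul_pi {P : Type u} [CommRing P] (J : Ideal P) {t : ℕ}
    (v : Fin t → P) : v ∈ (J • ⊤ : Submodule P (Fin t → P)) ↔ ∀ i, v i ∈ J := by
  constructor
  · intro h i
    have h2 : (J • ⊤ : Submodule P (Fin t → P)) ≤ Submodule.comap (LinearMap.proj i) J := by
      refine Submodule.smul_le.2 fun r hr w _ => ?_
      exact J.mul_mem_right _ hr
    exact h2 h
  · intro h
    rw [pi_eq_sum_univ' v]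
    refine Submodule.sum_mem _ fun i _ => ?_
    exact Submodule.smul_mem_smul (h i) trivial

private theorem isPrecomplete_pi (P : Type u) [CommRing P] (I : Ideal P) [hI : IsPrecomplete I P]
    (t : ℕ) : IsPrecomplete I (Fin t → P) := by
  constructor
  intro f hf
  have h1 : ∀ i : Fin t, ∃ L : P, ∀ n, f n i ≡ L [SMOD (I ^ n • ⊤ : Submodule P P)] := by
    intro i
    refine hI.prec' (fun n => f n i) ?_
    intro m n hmn
    have h2 := hf hmn
    rw [SModEq.sub_mem, mem_pow_smul_pi] at h2
    rw [SModEq.sub_mem, smul_eq_mul, Ideal.mul_top]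
    exact h2 i
  choose L hL using h1
  refine ⟨L, fun n => ?_⟩
  rw [SModEq.sub_mem, mem_pow_smul_pi]
  intro i
  have h3 := hL i n
  rw [SModEq.sub_mem, smul_eq_mul, Ideal.mul_top] at h3
  exact h3

theorem finite_of_quotient (P M : Type u) [CommRing P] (I : Ideal P) [IsPrecomplete I P]
    [AddCommGroup M] [Module P M] [IsHausdorff I M]
    [Module.Finite P (M ⧸ (I • ⊤ : Submodule P M))] : Module.Finite P M := by
  obtain ⟨t, g, hg⟩ := Module.Finite.exists_fin' P (M ⧸ (I • ⊤ : Submodule P M))
  obtain ⟨f, hf⟩ := Module.projective_lifting_property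
    (Submodule.mkQ (I • ⊤ : Submodule P M)) g (Submodule.mkQ_surjective _)
  have := isPrecomplete_pi P I t
  have hs : Function.Surjective f := by
    refine surjective_of_mkQ_comp_surjective (I := I) ?_
    rw [hf]
    exact hg
  exact Module.Finite.of_surjective f hs

private theorem exists_finset_span (Λ C : Type u) [CommRing Λ] [CommRing C] [IsLocalRing C]
    [IsNoetherianRing C] [Algebra Λ C]
    (hres : ∀ c : C, ∃ a : Λ, c - algebraMap Λ C a ∈ maximalIdeal C) (N : ℕ) :
    ∃ F : Finset C, ∀ c : C, ∃ s ∈ Submodule.span Λ (F : Set C), c - s ∈ maximalIdeal C ^ N := by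
  classical
  obtain ⟨Y, hY⟩ := (IsNoetherian.noetherian (maximalIdeal C) : (maximalIdeal C).FG)
  induction N with
  | zero =>
    refine ⟨∅, fun c => ⟨0, Submodule.zero_mem _, ?_⟩⟩
    rw [pow_zero, Ideal.one_eq_top]
    trivial
  | succ N ih =>
    obtain ⟨F, hF⟩ := ih
    refine ⟨insert 1 ((Y ×ˢ F).image fun q => q.1 * q.2), fun c => ?_⟩
    obtain ⟨a, ha⟩ := hres c
    rw [← hY] at ha
    obtain ⟨u, -, hu⟩ := Submodule.mem_span_finset.1 ha
    choose s hs hs2 using fun y => hF (u y)
    refine ⟨algebraMap Λ C a + ∑ y ∈ Y, y * s y, ?_, ?_⟩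
    · refine Submodule.add_mem _ ?_ (Submodule.sum_mem _ fun y hy => ?_)
      · rw [Algebra.algebraMap_eq_smul_one]
        exact Submodule.smul_mem _ _ (Submodule.subset_span (by simp))
      · have h1 : y * s y ∈ Submodule.map (LinearMap.mulLeft Λ y) (Submodule.span Λ (F : Set C)) :=
          ⟨s y, hs y, rfl⟩
        rw [Submodule.map_span] at h1
        refine Submodule.span_mono ?_ h1
        rintro _ ⟨x, hx, rfl⟩
        simp only [Finset.coe_insert, Finset.coe_image]
        right
        exact ⟨(y, x), by simpa using ⟨hy, hx⟩, rfl⟩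
    · have h2 : c - (algebraMap Λ C a + ∑ y ∈ Y, y * s y) = ∑ y ∈ Y, (u y - s y) * y := by
        rw [← sub_sub, ← hu, ← Finset.sum_sub_distrib]
        refine Finset.sum_congr rfl fun y _ => ?_
        rw [smul_eq_mul]
        ring
      rw [h2]
      refine Ideal.sum_mem _ fun y hy => ?_
      rw [pow_succ]
      refine Ideal.mul_mem_mul (hs2 y) ?_
      rw [← hY]
      exact Submodule.subset_span hy

theorem finite_quotient_of_pow_le (Λ C : Type u) [CommRing Λ] [CommRing C] [IsLocalRing C]
    [IsNoetherianRing C] [Algebra Λ C]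
    (hres : ∀ c : C, ∃ a : Λ, c - algebraMap Λ C a ∈ maximalIdeal C) (J : Ideal C) {N : ℕ}
    (hJ : maximalIdeal C ^ N ≤ J) : Module.Finite Λ (C ⧸ J) := by
  obtain ⟨F, hF⟩ := exists_finset_span Λ C hres N
  refine ⟨Submodule.fg_def.2 ?_⟩
  refine ⟨(Ideal.Quotient.mkₐ Λ J).toLinearMap '' (F : Set C), F.finite_toSet.image _, ?_⟩
  rw [← Submodule.map_span, eq_top_iff]
  intro q _
  obtain ⟨c, rfl⟩ := Ideal.Quotient.mk_surjective q
  obtain ⟨s, hs, hs2⟩ := hF c
  refine ⟨s, hs, ?_⟩
  exact (Ideal.Quotient.eq.2 (hJ hs2)).symm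

end Pool.Agent.LCD
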