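import Pool.Agent.Lib.LCD.B1
import Pool.Agent.Lib.LCD.B2

/-! # B3: a complete local ring is finite over the power series in a system of parameters

Recipe. Make `C` a `P`-algebra by `φ` (`P = MvPowerSeries (Fin n) Λ`), `IsScalarTower Λ P C`. `I = span (range X)` in `P`; `P` is `I`-adically complete
(instance in `AdicCompletion/Completeness.lean`). `I • ⊤ = span (range x)` as a submodule of `C`; `C` is Hausdorff for it (Krull, `IsHausdorff` with
`map_algebraMap_iff`, `IsHausdorff.of_isLocalRing`; `I • ⊤` versus the ideal `J₁ = span (range x)` of `C`). By `finite_of_quotient` it is enough that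
`M₁ = C ⧸ J₁` is finite over `P`, and for this that it is finite over `Λ` (`Module.Finite.of_restrictScalars_finite Λ P M₁`). Over `Λ`, again
`finite_of_quotient` with the ideal `span {π}`: `M₁` is Hausdorff for `π` (noetherian local ring or zero ring: if `J₁ = ⊤` everything is trivial; Krull for
the finite `C`-module `C ⧸ J₁` and the ideal generated by the image of `π`), `M₁ ⧸ π M₁ ≅ C ⧸ (J₁ + (π))` is finite over `Λ` by
`finite_quotient_of_pow_le`. The case `π = 0` is included. -/

set_option autoImplicit false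

namespace Pool.Agent.LCD

open IsLocalRing

universe u

/-- The quotient by the ideal of the parameters is finite over the base. -/
private theorem finite_quotient_params (Λ C : Type u) [CommRing Λ] [CommRing C] [IsLocalRing C]
    [IsNoetherianRing C] [Algebra Λ C] (π : Λ) [IsPrecomplete (Ideal.span {π}) Λ]
    (hπ : algebraMap Λ C π ∈ maximalIdeal C)
    (hres : ∀ c : C, ∃ a : Λ, c - algebraMap Λ C a ∈ maximalIdeal C) {n : ℕ} (x : Fin n → C)
    {N : ℕ} (hN : maximalIdeal C ^ N ≤ Ideal.span ({algebraMap Λ C π} ∪ Set.range x)) :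
    Module.Finite Λ (C ⧸ Ideal.span (Set.range x)) := by
  set J₁ : Ideal C := Ideal.span (Set.range x) with hJ₁
  have hmap : (Ideal.span {π}).map (algebraMap Λ C) = Ideal.span {algebraMap Λ C π} := by
    rw [Ideal.map_span, Set.image_singleton]
  have hle : Ideal.span {algebraMap Λ C π} ≤ maximalIdeal C := by
    rw [Ideal.span_le]
    rintro _ rfl
    exact hπ
  have h1 : IsHausdorff (Ideal.span {algebraMap Λ C π}) (C ⧸ J₁) :=
    IsHausdorff.of_le_jacobson _ _ (hle.trans (maximalIdeal_le_jacobson _))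
  have h2 : IsHausdorff (Ideal.span {π}) (C ⧸ J₁) := IsHausdorff.of_map hmap.le
  set J : Ideal C := Ideal.span ({algebraMap Λ C π} ∪ Set.range x) with hJ
  have h3 : Module.Finite Λ (C ⧸ J) := finite_quotient_of_pow_le Λ C hres J hN
  have h4 : Module.Finite Λ (C ⧸ J.restrictScalars Λ) :=
    Module.Finite.equiv (Submodule.Quotient.restrictScalarsEquiv Λ J).symm
  let g : C →ₗ[Λ] (C ⧸ J₁) ⧸ (Ideal.span {π} • ⊤ : Submodule Λ (C ⧸ J₁)) :=
    (Submodule.mkQ _).comp ((Submodule.mkQ J₁).restrictScalars Λ)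
  have hg : J.restrictScalars Λ ≤ LinearMap.ker g := by
    intro c hc
    have hc' : c ∈ J := hc
    rw [hJ, Ideal.span_union, Submodule.mem_sup] at hc'
    obtain ⟨a, ha, b, hb, rfl⟩ := hc'
    obtain ⟨d, rfl⟩ := Ideal.mem_span_singleton'.1 ha
    rw [LinearMap.mem_ker, map_add]
    have hb' : g b = 0 := by
      have h5 : (Submodule.mkQ J₁) b = 0 := by
        rw [Submodule.mkQ_apply, Submodule.Quotient.mk_eq_zero]
        exact hb
      change (Submodule.mkQ _) ((Submodule.mkQ J₁) b) = 0
      rw [h5, map_zero]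
    have ha' : g (d * algebraMap Λ C π) = 0 := by
      change (Submodule.mkQ _) ((Submodule.mkQ J₁) (d * algebraMap Λ C π)) = 0
      rw [Submodule.mkQ_apply, Submodule.Quotient.mk_eq_zero]
      have h6 : (Submodule.mkQ J₁) (d * algebraMap Λ C π) = π • (Submodule.mkQ J₁) d := by
        rw [mul_comm, ← Algebra.smul_def]
        exact ((Submodule.mkQ J₁).restrictScalars Λ).map_smul π d
      rw [h6]
      exact Submodule.smul_mem_smul (Ideal.mem_span_singleton_self π) Submodule.mem_top
    rw [ha', hb', add_zero]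
  have h7 : Module.Finite Λ ((C ⧸ J₁) ⧸ (Ideal.span {π} • ⊤ : Submodule Λ (C ⧸ J₁))) := by
    refine Module.Finite.of_surjective ((J.restrictScalars Λ).liftQ g hg) ?_
    intro y
    obtain ⟨y', rfl⟩ := Submodule.mkQ_surjective _ y
    obtain ⟨c, rfl⟩ := Submodule.mkQ_surjective _ y'
    exact ⟨Submodule.Quotient.mk c, rfl⟩
  exact finite_of_quotient Λ (C ⧸ J₁) (Ideal.span {π})

theorem finite_powerSeries (Λ C : Type u) [CommRing Λ] [CommRing C] [IsLocalRing C]
    [IsNoetherianRing C] [Algebra Λ C] (π : Λ) [IsPrecomplete (Ideal.span {π}) Λ]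
    (hπ : algebraMap Λ C π ∈ maximalIdeal C)
    (hres : ∀ c : C, ∃ a : Λ, c - algebraMap Λ C a ∈ maximalIdeal C) {n : ℕ} (x : Fin n → C)
    (hx : ∀ i, x i ∈ maximalIdeal C) {N : ℕ}
    (hN : maximalIdeal C ^ N ≤ Ideal.span ({algebraMap Λ C π} ∪ Set.range x))
    (φ : MvPowerSeries (Fin n) Λ →ₐ[Λ] C) (hφ : ∀ i, φ (MvPowerSeries.X i) = x i) :
    φ.toRingHom.Finite := by
  letI : Algebra (MvPowerSeries (Fin n) Λ) C := φ.toRingHom.toAlgebra
  have : IsScalarTower Λ (MvPowerSeries (Fin n) Λ) C :=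
    IsScalarTower.of_algebraMap_eq fun a => (φ.commutes a).symm
  have hfin := finite_quotient_params Λ C π hπ hres x hN
  set J₁ : Ideal C := Ideal.span (Set.range x) with hJ₁
  have hJ₁le : J₁ ≤ maximalIdeal C := by
    rw [hJ₁, Ideal.span_le]
    rintro _ ⟨i, rfl⟩
    exact hx i
  have hmap : (Ideal.span (Set.range MvPowerSeries.X) :
      Ideal (MvPowerSeries (Fin n) Λ)).map (algebraMap (MvPowerSeries (Fin n) Λ) C) = J₁ := by
    rw [Ideal.map_span, ← Set.range_comp, hJ₁]
    congr 2
    funext i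
    exact hφ i
  have h1 : IsHausdorff J₁ C :=
    IsHausdorff.of_le_jacobson _ _ (hJ₁le.trans (maximalIdeal_le_jacobson _))
  have h2 : IsHausdorff (Ideal.span (Set.range MvPowerSeries.X) :
      Ideal (MvPowerSeries (Fin n) Λ)) C := IsHausdorff.of_map hmap.le
  have h3 : Module.Finite Λ (C ⧸ J₁.restrictScalars Λ) :=
    Module.Finite.equiv (Submodule.Quotient.restrictScalarsEquiv Λ J₁).symm
  have h4 : ((Ideal.span (Set.range MvPowerSeries.X) : Ideal (MvPowerSeries (Fin n) Λ)) •
      (⊤ : Submodule (MvPowerSeries (Fin n) Λ) C)) =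
        J₁.restrictScalars (MvPowerSeries (Fin n) Λ) := by
    rw [Ideal.smul_top_eq_map, hmap]
  have h3' : Module.Finite Λ (C ⧸ (J₁.restrictScalars (MvPowerSeries (Fin n) Λ)).restrictScalars
      Λ) := h3
  have h5 : Module.Finite Λ (C ⧸ J₁.restrictScalars (MvPowerSeries (Fin n) Λ)) :=
    Module.Finite.equiv (Submodule.Quotient.restrictScalarsEquiv Λ
      (J₁.restrictScalars (MvPowerSeries (Fin n) Λ)))
  have h6 : Module.Finite (MvPowerSeries (Fin n) Λ)
      (C ⧸ J₁.restrictScalars (MvPowerSeries (Fin n) Λ)) :=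
    Module.Finite.of_restrictScalars_finite Λ _ _
  have h7 : Module.Finite (MvPowerSeries (Fin n) Λ)
      (C ⧸ ((Ideal.span (Set.range MvPowerSeries.X) : Ideal (MvPowerSeries (Fin n) Λ)) •
      (⊤ : Submodule (MvPowerSeries (Fin n) Λ) C))) := by
    rw [h4]
    exact h6
  have h8 : IsAdicComplete (Ideal.span (Set.range MvPowerSeries.X) :
      Ideal (MvPowerSeries (Fin n) Λ)) (MvPowerSeries (Fin n) Λ) := inferInstance
  exact finite_of_quotient (MvPowerSeries (Fin n) Λ) C (Ideal.span (Set.range MvPowerSeries.X))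

end Pool.Agent.LCD
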