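import Mathlib

/-! # B4: the base is regular

Recipe. `C` is integral over `S`. `ringKrullDim_le_of_integral`: a strict chain of primes of `C` contracts to a strict chain of primes of `S`
(`Ideal.comap_lt_comap_of_integral_mem_sdiff`, `Ideal.IsIntegralClosure.comap_lt_comap` or similar): `Order.krullDim_le_of_strictMono` with
`PrimeSpectrum.comap`. `regular_of_integral`: `S` is local: a prime of `S` which is maximal is the contraction of a prime of `C` (lying over,
`Ideal.exists_ideal_over_maximal_of_isIntegral`), which is maximal, so `m_C`; thus the maximal ideal of `S` is `m_C ∩ S` (`IsLocalRing.of_unique_max_ideal`);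
`IsLocalHom`. It is generated by the `z i` (`hgen`). `ringKrullDim S ≤ t` (`ringKrullDim_le_spanFinrank_maximalIdeal` and
`Submodule.spanFinrank_span_le_ncard_of_finite`), `d = dim C ≤ dim S ≤ t ≤ d`. `IsRegularLocalRing.of_spanFinrank_maximalIdeal_le`. The last claim: if
`z i ∈ m_S ^ 2`, then by Nakayama (`Submodule.le_of_le_smul_of_le_jacobson_bot`) `m_S` is generated by the other `z j`, `t - 1` elements
(`t ≥ 1` because of `i`), so `dim S ≤ t - 1`, contradiction. -/

set_option autoImplicit false

namespace Pool.Agent.LCD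

open IsLocalRing

universe u

theorem ringKrullDim_le_of_integral (S C : Type u) [CommRing S] [CommRing C] [Algebra S C]
    [Algebra.IsIntegral S C] : ringKrullDim C ≤ ringKrullDim S := by
  refine Order.krullDim_le_of_strictMono (PrimeSpectrum.comap (algebraMap S C)) fun P Q h => ?_
  have h2 : P.asIdeal < Q.asIdeal := h
  exact Ideal.IsIntegral.comap_lt_comap h2

theorem regular_of_integral (S C : Type u) [CommRing S] [CommRing C] [Algebra S C]
    [FaithfulSMul S C] [Algebra.IsIntegral S C] [IsNoetherianRing S] [IsLocalRing C] {t d : ℕ}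
    (hd : ringKrullDim C = d) (htd : t ≤ d) (z : Fin t → S)
    (hz : ∀ i, algebraMap S C (z i) ∈ maximalIdeal C)
    (hgen : ∀ s : S, algebraMap S C s ∈ maximalIdeal C → s ∈ Ideal.span (Set.range z)) :
    t = d ∧ ∃ _ : IsRegularLocalRing S, ringKrullDim S = d ∧
      (∀ s : S, s ∈ maximalIdeal S ↔ algebraMap S C s ∈ maximalIdeal C) ∧
      ∀ i, z i ∉ maximalIdeal S ^ 2 := by
  have hm : ((maximalIdeal C).comap (algebraMap S C)).IsMaximal :=
    Ideal.isMaximal_comap_of_isIntegral_of_isMaximal (maximalIdeal C)
  have hloc : IsLocalRing S := by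
    refine IsLocalRing.of_unique_max_ideal ⟨_, hm, fun P hP => ?_⟩
    have hP' : P.IsMaximal := hP
    obtain ⟨Q, hQ, hQP⟩ := Ideal.exists_ideal_over_maximal_of_isIntegral (S := C) P (by
      rw [(RingHom.injective_iff_ker_eq_bot _).mp (FaithfulSMul.algebraMap_injective S C)]
      exact bot_le)
    rw [← hQP, eq_maximalIdeal hQ]
  have hmax : maximalIdeal S = (maximalIdeal C).comap (algebraMap S C) := (eq_maximalIdeal hm).symm
  have hspan : maximalIdeal S = Ideal.span (Set.range z) := by
    refine le_antisymm (fun s hs => hgen s ?_) (Ideal.span_le.2 ?_)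
    · rw [hmax] at hs
      exact hs
    · rintro _ ⟨i, rfl⟩
      rw [hmax]
      exact hz i
  have hrank : (maximalIdeal S).spanFinrank ≤ t := by
    rw [hspan]
    refine (Submodule.spanFinrank_span_le_ncard_of_finite (Set.finite_range z)).trans ?_
    rw [← Set.image_univ]
    refine (Set.ncard_image_le Set.finite_univ).trans ?_
    rw [Set.ncard_univ, Nat.card_eq_fintype_card, Fintype.card_fin]
  have hdim1 : ringKrullDim S ≤ t :=
    (ringKrullDim_le_spanFinrank_maximalIdeal S).trans (by exact_mod_cast hrank)
  have hdim2 : (d : WithBot ℕ∞) ≤ ringKrullDim S := by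
    rw [← hd]
    exact ringKrullDim_le_of_integral S C
  have htd' : t = d := by
    refine le_antisymm htd ?_
    exact_mod_cast hdim2.trans hdim1
  have hdS : ringKrullDim S = d := by
    refine le_antisymm ?_ hdim2
    rw [← htd']
    exact hdim1
  refine ⟨htd', IsRegularLocalRing.of_spanFinrank_maximalIdeal_le S ?_, hdS, ?_, ?_⟩
  · rw [hdS, ← htd']
    exact_mod_cast hrank
  · intro s
    rw [hmax]
    exact Iff.rfl
  · intro i hi
    have hle : maximalIdeal S ≤ Ideal.span (z '' {j | j ≠ i}) := by
      refine Submodule.le_of_le_smul_of_le_jacobson_bot (I := maximalIdeal S)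
        (IsNoetherian.noetherian _) (maximalIdeal_le_jacobson ⊥) ?_
      conv_lhs => rw [hspan]
      refine Ideal.span_le.2 ?_
      rintro _ ⟨j, rfl⟩
      by_cases hj : j = i
      · subst hj
        refine Submodule.mem_sup_right ?_
        rw [smul_eq_mul, ← sq]
        exact hi
      · exact Submodule.mem_sup_left (Ideal.subset_span ⟨j, hj, rfl⟩)
    have heq : maximalIdeal S = Ideal.span (z '' {j | j ≠ i}) := by
      refine le_antisymm hle ?_
      rw [hspan]
      exact Ideal.span_mono (Set.image_subset_range _ _)
    have hr2 : (maximalIdeal S).spanFinrank ≤ t - 1 := by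
      rw [heq]
      refine (Submodule.spanFinrank_span_le_ncard_of_finite (Set.toFinite _)).trans ?_
      refine (Set.ncard_image_le (Set.toFinite _)).trans ?_
      have h1 : {j : Fin t | j ≠ i} = ((Finset.univ.erase i : Finset (Fin t)) : Set (Fin t)) := by
        ext j
        simp
      rw [h1, Set.ncard_coe_finset, Finset.card_erase_of_mem (Finset.mem_univ i), Finset.card_univ,
        Fintype.card_fin]
    have h3 : (d : WithBot ℕ∞) ≤ ((t - 1 : ℕ) : WithBot ℕ∞) :=
      (hdim2.trans (ringKrullDim_le_spanFinrank_maximalIdeal S)).trans (by exact_mod_cast hr2)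
    have h4 : d ≤ t - 1 := by exact_mod_cast h3
    have h5 : 0 < t := lt_of_le_of_lt (Nat.zero_le _) i.2
    omega

end Pool.Agent.LCD
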