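import Mathlib

/-! # B5: systems of parameters

Recipe. `exists_sop`: `Ideal.exists_finset_card_eq_height_of_isNoetherianRing (maximalIdeal C)` gives a finite set `s` with `d` elements and
`m ∈ (span s).minimalPrimes` (`height m = ringKrullDim C = d`: `IsLocalRing.maximalIdeal_height_eq_ringKrullDim`). As `C` is local, the only prime containing
`span s` is `m` (a prime `q ⊇ span s` is in `m`, minimality gives `q = m`), so `radical (span s) = m`, and `m ^ N ≤ span s`
(`Ideal.exists_pow_le_of_le_radical_of_fg` or similar). `exists_sop_of_mem`: `C` a domain, `ϖ ≠ 0` in `m`: apply `exists_sop` to the local ring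
`B = C ⧸ span {ϖ}` (`IsLocalRing.of_surjective'`), whose dimension is `d - 1` (`ringKrullDim_quotient_succ_le_of_nonZeroDivisor`: it is `≤ d - 1`; the
dimension is a natural number: `B` noetherian local nontrivial; if it is `t < d - 1` there are still `d - 1` elements: repeat by `0`), lift the
elements to `C`. `m_B` is the image of `m`; `m ^ N ≤ span ({ϖ} ∪ range x)`. `d ≥ 1` since `d = 0` would make `C` a field. -/

set_option autoImplicit false

namespace Pool.Agent.LCD

open IsLocalRing

universe u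

private theorem sop_aux (C : Type u) [CommRing C] [IsLocalRing C] [IsNoetherianRing C] {t : ℕ}
    (hd : ringKrullDim C ≤ t) :
    ∃ (x : Fin t → C) (N : ℕ), (∀ i, x i ∈ maximalIdeal C) ∧
      maximalIdeal C ^ N ≤ Ideal.span (Set.range x) := by
  classical
  obtain ⟨s, hmin, hcard⟩ :=
    Ideal.exists_finset_card_eq_height_of_isNoetherianRing (maximalIdeal C)
  have hst : s.card ≤ t := by
    rw [← IsLocalRing.maximalIdeal_height_eq_ringKrullDim, ← hcard] at hd
    exact_mod_cast hd
  have hrad : maximalIdeal C ≤ (Ideal.span (s : Set C)).radical := by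
    rw [Ideal.radical_eq_sInf]
    refine le_sInf fun J hJ => ?_
    exact hmin.2 ⟨hJ.2, hJ.1⟩ (le_maximalIdeal hJ.2.ne_top)
  obtain ⟨N, hN⟩ := Ideal.exists_pow_le_of_le_radical_of_fg hrad (IsNoetherian.noetherian _)
  refine ⟨fun i => if h : (i : ℕ) < s.card then ((s.equivFin.symm ⟨i, h⟩ : s) : C) else 0, N, ?_,
    hN.trans ?_⟩
  · intro i
    beta_reduce
    split_ifs with h
    · exact hmin.1.2 (Ideal.subset_span (s.equivFin.symm ⟨i, h⟩).2)
    · exact Ideal.zero_mem _
  · refine Ideal.span_mono fun c hc => ?_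
    have hlt : ((s.equivFin ⟨c, hc⟩ : Fin s.card) : ℕ) < s.card := (s.equivFin ⟨c, hc⟩).2
    refine ⟨⟨s.equivFin ⟨c, hc⟩, hlt.trans_le hst⟩, ?_⟩
    beta_reduce
    rw [dif_pos hlt]
    simp

theorem exists_sop (C : Type u) [CommRing C] [IsLocalRing C] [IsNoetherianRing C] {d : ℕ}
    (hd : ringKrullDim C = d) :
    ∃ (x : Fin d → C) (N : ℕ), (∀ i, x i ∈ maximalIdeal C) ∧
      maximalIdeal C ^ N ≤ Ideal.span (Set.range x) :=
  sop_aux C hd.le

theorem exists_sop_of_mem (C : Type u) [CommRing C] [IsDomain C] [IsLocalRing C]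
    [IsNoetherianRing C] {d : ℕ} (hd : ringKrullDim C = ((d + 1 : ℕ) : WithBot ℕ∞)) (ϖ : C)
    (h0 : ϖ ≠ 0) (hϖ : ϖ ∈ maximalIdeal C) :
    ∃ (x : Fin d → C) (N : ℕ), (∀ i, x i ∈ maximalIdeal C) ∧
      maximalIdeal C ^ N ≤ Ideal.span ({ϖ} ∪ Set.range x) := by
  have hne : Ideal.span {ϖ} ≤ maximalIdeal C := by
    rw [Ideal.span_le, Set.singleton_subset_iff]
    exact hϖ
  have hnt : Ideal.span {ϖ} ≠ ⊤ := fun h => by
    rw [h, top_le_iff] at hne
    exact (IsLocalRing.maximalIdeal.isMaximal C).ne_top hne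
  have hN : Nontrivial (C ⧸ Ideal.span {ϖ}) := Ideal.Quotient.nontrivial_iff.2 hnt
  have hsurj : Function.Surjective (Ideal.Quotient.mk (Ideal.span {ϖ})) :=
    Ideal.Quotient.mk_surjective
  have hL : IsLocalRing (C ⧸ Ideal.span {ϖ}) := IsLocalRing.of_surjective' _ hsurj
  have hLH : IsLocalHom (Ideal.Quotient.mk (Ideal.span {ϖ})) := IsLocalHom.of_surjective _ hsurj
  have hdim : ringKrullDim (C ⧸ Ideal.span {ϖ}) ≤ d := by
    have h1 := ringKrullDim_quotient_succ_le_of_nonZeroDivisor
      (mem_nonZeroDivisors_of_ne_zero h0)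
    rw [hd] at h1
    generalize ringKrullDim (C ⧸ Ideal.span {ϖ}) = e at h1 ⊢
    induction e with
    | bot => exact bot_le
    | coe e =>
      induction e with
      | top =>
        exfalso
        have h2 : (⊤ : ℕ∞) + 1 ≤ ((d + 1 : ℕ) : ℕ∞) := by exact_mod_cast h1
        rw [top_add, top_le_iff] at h2
        exact ENat.natCast_ne_top _ h2
      | coe e =>
        have h3 : e + 1 ≤ d + 1 := by exact_mod_cast h1
        exact_mod_cast (by omega : e ≤ d)
  obtain ⟨y, N, hy, hyN⟩ := sop_aux (C ⧸ Ideal.span {ϖ}) hdim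
  choose x hx using fun i => hsurj (y i)
  have hcomap := IsLocalRing.maximalIdeal_comap (Ideal.Quotient.mk (Ideal.span {ϖ}))
  refine ⟨x, N, fun i => ?_, ?_⟩
  · rw [← hcomap, Ideal.mem_comap, hx]
    exact hy i
  · have hmap : (maximalIdeal C).map (Ideal.Quotient.mk (Ideal.span {ϖ})) =
        maximalIdeal (C ⧸ Ideal.span {ϖ}) := by
      rw [← hcomap, Ideal.map_comap_of_surjective _ hsurj]
    have hspan : Ideal.span (Set.range y) =
        (Ideal.span (Set.range x)).map (Ideal.Quotient.mk (Ideal.span {ϖ})) := by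
      rw [Ideal.map_span, ← Set.range_comp]
      congr 2
      funext i
      exact (hx i).symm
    intro c hc
    have h1 : Ideal.Quotient.mk (Ideal.span {ϖ}) c ∈
        (Ideal.span (Set.range x)).map (Ideal.Quotient.mk (Ideal.span {ϖ})) := by
      rw [← hspan]
      refine hyN ?_
      rw [← hmap, ← Ideal.map_pow]
      exact Ideal.mem_map_of_mem _ hc
    obtain ⟨c', hc', hcc⟩ := (Ideal.mem_map_iff_of_surjective _ hsurj).1 h1
    rw [Ideal.Quotient.eq, Ideal.mem_span_singleton'] at hcc
    obtain ⟨a, ha⟩ := hcc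
    have h2 : c = c' + (-a) * ϖ := by
      rw [neg_mul, ha]
      ring
    rw [h2]
    refine Ideal.add_mem _ (Ideal.span_mono Set.subset_union_right hc')
      (Ideal.mul_mem_left _ _ (Ideal.subset_span (Or.inl rfl)))

end Pool.Agent.LCD
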