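import Pool.Agent.Lib.LCD.B3
import Pool.Agent.Lib.LCD.B4
import Pool.Agent.Lib.LCD.B5

/-! # A complete local ring is finite over a regular local ring: the base -/

set_option autoImplicit false

namespace Pool.Agent.LCD

open IsLocalRing

universe u

/-- The image of the power series in the elements `x i`: `C` is finite over it. -/
theorem exists_subalgebra (Λ C : Type u) [CommRing Λ] [IsNoetherianRing Λ] [CommRing C]
    [IsLocalRing C] [IsNoetherianRing C] [IsAdicComplete (maximalIdeal C) C] [Algebra Λ C] (π : Λ)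
    [IsPrecomplete (Ideal.span {π}) Λ] (hπ : algebraMap Λ C π ∈ maximalIdeal C)
    (hker : ∀ a : Λ, algebraMap Λ C a ∈ maximalIdeal C → ∃ b, a = π * b)
    (hres : ∀ c : C, ∃ a : Λ, c - algebraMap Λ C a ∈ maximalIdeal C) {n : ℕ} (x : Fin n → C)
    (hx : ∀ i, x i ∈ maximalIdeal C) {N : ℕ}
    (hN : maximalIdeal C ^ N ≤ Ideal.span ({algebraMap Λ C π} ∪ Set.range x)) :
    ∃ φ : MvPowerSeries (Fin n) Λ →ₐ[Λ] C, (∀ i, φ (MvPowerSeries.X i) = x i) ∧
      IsNoetherianRing φ.range ∧ Module.Finite φ.range C ∧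
      ∀ s ∈ φ.range, s ∈ maximalIdeal C → ∃ b ∈ φ.range, ∃ g : Fin n → C,
        (∀ i, g i ∈ φ.range) ∧ s = algebraMap Λ C π * b + ∑ i, x i * g i := by
  obtain ⟨φ, hφ⟩ := exists_powerSeries_map Λ C (maximalIdeal C) x hx
  have hfin := finite_powerSeries Λ C π hπ hres x hx hN φ hφ
  refine ⟨φ, hφ, ?_, ?_, ?_⟩
  · exact isNoetherianRing_of_surjective (MvPowerSeries (Fin n) Λ) φ.range
      φ.rangeRestrict.toRingHom φ.rangeRestrict_surjective
  · let i1 : Algebra (MvPowerSeries (Fin n) Λ) C := φ.toRingHom.toAlgebra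
    let i2 : Algebra (MvPowerSeries (Fin n) Λ) φ.range := φ.rangeRestrict.toRingHom.toAlgebra
    have i3 : IsScalarTower (MvPowerSeries (Fin n) Λ) φ.range C :=
      IsScalarTower.of_algebraMap_eq fun f => rfl
    have i4 : Module.Finite (MvPowerSeries (Fin n) Λ) C := hfin
    exact Module.Finite.of_restrictScalars_finite (MvPowerSeries (Fin n) Λ) φ.range C
  · rintro _ ⟨f, rfl⟩ hs
    obtain ⟨a, g, rfl⟩ := powerSeries_split Λ f
    have h1 : φ (algebraMap Λ (MvPowerSeries (Fin n) Λ) a + ∑ i, MvPowerSeries.X i * g i) =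
        algebraMap Λ C a + ∑ i, x i * φ (g i) := by
      rw [map_add, map_sum, AlgHom.commutes]
      congr 1
      exact Finset.sum_congr rfl fun i _ => by rw [map_mul, hφ]
    have hs' : φ (algebraMap Λ (MvPowerSeries (Fin n) Λ) a + ∑ i, MvPowerSeries.X i * g i) ∈
      maximalIdeal C := hs
    rw [h1] at hs'
    have h2 : algebraMap Λ C a ∈ maximalIdeal C := by
      have h3 : ∑ i, x i * φ (g i) ∈ maximalIdeal C :=
        Ideal.sum_mem _ fun i _ => Ideal.mul_mem_right _ _ (hx i)
      have h4 := sub_mem hs' h3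
      rwa [add_sub_cancel_right] at h4
    obtain ⟨b, rfl⟩ := hker a h2
    refine ⟨algebraMap Λ C b, φ.range.algebraMap_mem b, fun i => φ (g i), fun i => ⟨g i, rfl⟩, ?_⟩
    change φ _ = _
    rw [h1, map_mul]

/-- Ideals generated by finitely many `p`-th powers times units. -/
theorem exists_pow_le_of_radical (C : Type u) [CommRing C] [IsLocalRing C] [IsNoetherianRing C]
    {n : ℕ} (y x : Fin n → C) {N : ℕ} (hN : maximalIdeal C ^ N ≤ Ideal.span (Set.range y))
    (hxy : ∀ i, y i ∈ (Ideal.span (Set.range x)).radical) :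
    ∃ N' : ℕ, maximalIdeal C ^ N' ≤ Ideal.span (Set.range x) := by
  have h1 : maximalIdeal C ^ N ≤ (Ideal.span (Set.range x)).radical := by
    refine hN.trans ?_
    rw [Ideal.span_le]
    rintro _ ⟨i, rfl⟩
    exact hxy i
  have h2 : maximalIdeal C ≤ (Ideal.span (Set.range x)).radical := by
    intro a ha
    have h3 : a ^ N ∈ (Ideal.span (Set.range x)).radical := h1 (Ideal.pow_mem_pow ha N)
    rw [← Ideal.radical_idem]
    exact ⟨N, h3⟩
  exact Ideal.exists_pow_le_of_le_radical_of_fg h2 (IsNoetherian.noetherian _)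

end Pool.Agent.LCD
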