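import Mathlib

/-! # G1: the degree over the subfield of p-th powers does not change in finite extensions -/

set_option autoImplicit false

namespace Pool.Agent.LCD

universe u

theorem finrank_frobenius (p : ℕ) [Fact p.Prime] {L K : Type u} [Field L] [Field K]
    [Algebra L K] [CharP L p] [CharP K p] [FiniteDimensional L K] {q : ℕ}
    (hfin : FiniteDimensional (frobenius L p).fieldRange L)
    (hq : Module.finrank (frobenius L p).fieldRange L ≤ q) :
    FiniteDimensional (frobenius K p).fieldRange K ∧
      Module.finrank (frobenius K p).fieldRange K ≤ q := by
  classical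
  let FL := (frobenius L p).fieldRange
  let FK := (frobenius K p).fieldRange
  let g : FL →+* FK := ((algebraMap L K).comp FL.subtype).codRestrict FK (by
    intro x
    obtain ⟨y, hy⟩ := x.2
    refine ⟨algebraMap L K y, ?_⟩
    change (algebraMap L K y) ^ p = algebraMap L K x.1
    rw [← hy, ← map_pow]
    rfl)
  let _ : Algebra FL FK := g.toAlgebra
  have : IsScalarTower FL FK K := IsScalarTower.of_algebraMap_eq (fun x => rfl)
  let eL : L ≃+* FL := RingEquiv.ofBijective (frobenius L p).rangeRestrictField
    ⟨(frobenius L p).rangeRestrictField.injective, (frobenius L p).rangeRestrictField_bijective.2⟩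
  let eK : K ≃+* FK := RingEquiv.ofBijective (frobenius K p).rangeRestrictField
    ⟨(frobenius K p).rangeRestrictField.injective, (frobenius K p).rangeRestrictField_bijective.2⟩
  have hd : Module.finrank L K = Module.finrank FL FK := by
    refine Algebra.finrank_eq_of_equiv_equiv eL eK ?_
    ext x
    change algebraMap L K (x ^ p) = (algebraMap L K x) ^ p
    simp
  have : FiniteDimensional FL K := FiniteDimensional.trans FL L K
  have : FiniteDimensional FK K := FiniteDimensional.right FL FK K
  refine ⟨inferInstance, ?_⟩
  have h1 : Module.finrank FL L * Module.finrank L K = Module.finrank FL K :=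
    Module.finrank_mul_finrank FL L K
  have h2 : Module.finrank FL FK * Module.finrank FK K = Module.finrank FL K :=
    Module.finrank_mul_finrank FL FK K
  have h3 : 0 < Module.finrank L K := Module.finrank_pos
  rw [← h1, ← hd, mul_comm] at h2
  have h4 := Nat.eq_of_mul_eq_mul_right h3 h2
  exact h4.le.trans hq

end Pool.Agent.LCD
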