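import Mathlib

/-! # G2: the degree over the p-th powers for the field of fractions of a ring with few p-th power cosets; power series

Recipe. `finrank_frobenius_frac`: `g = a / b = a b^(p-1) / b^p`, write `a b^(p-1) = ∑ c_α^p y^α`, so `g = ∑ (c_α / b)^p y^α`: the `p^s` monomials `y^α`,
`0 ≤ α_i < p`, generate `L` over `L^p`. `powerSeries_pow`: `f = ∑_α X^α f_α(X^p)` and `f_α(X^p) = g_α^p`, where the coefficient of `X^β` in `g_α` is the
`p`-th root of the coefficient of `X^(α + p β)` in `f`. The coefficient of `X^γ` in `g^p` is `0` if `p ∤ γ` and `(coeff β g)^p` if `γ = p β`: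
`MvPowerSeries` Frobenius; perhaps `MvPowerSeries.expand`/`map_frobenius_expand` (`Mathlib/RingTheory/MvPowerSeries/Expand.lean`), or
`MvPowerSeries.coeff_pow`-type lemmas; division with remainder `γ_i = α_i + p β_i` is unique. -/

set_option autoImplicit false

namespace Pool.Agent.LCD

universe u

theorem finrank_frobenius_frac (p : ℕ) [Fact p.Prime] (S L : Type u) [CommRing S] [IsDomain S]
    [CharP S p] {s : ℕ} (y : Fin s → S)
    (hS : ∀ f : S, ∃ g : (Fin s → Fin p) → S, f = ∑ α, g α ^ p * ∏ i, y i ^ (α i : ℕ))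
    [Field L] [CharP L p] [Algebra S L] [IsFractionRing S L] :
    FiniteDimensional (frobenius L p).fieldRange L ∧
      Module.finrank (frobenius L p).fieldRange L ≤ p ^ s := by
  classical
  have hp : p ≠ 0 := (Fact.out : p.Prime).ne_zero
  set m : (Fin s → Fin p) → L := fun α => ∏ i, algebraMap S L (y i) ^ (α i : ℕ) with hm
  have hspan : Submodule.span (frobenius L p).fieldRange (Set.range m) = ⊤ := by
    rw [eq_top_iff]
    intro x _
    obtain ⟨a, b, hb, rfl⟩ := IsFractionRing.div_surjective (A := S) x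
    have hb0 : algebraMap S L b ≠ 0 := by
      rw [Ne, IsFractionRing.to_map_eq_zero_iff]
      exact nonZeroDivisors.ne_zero hb
    obtain ⟨c, hc⟩ := hS (a * b ^ (p - 1))
    have h1 : algebraMap S L a / algebraMap S L b =
        ∑ α, (algebraMap S L (c α) / algebraMap S L b) ^ p * m α := by
      have h2 := congrArg (algebraMap S L) hc
      rw [map_mul, map_pow, map_sum] at h2
      rw [div_eq_iff hb0]
      have h3 : algebraMap S L b ^ (p - 1) ≠ 0 := pow_ne_zero _ hb0
      apply mul_right_cancel₀ h3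
      rw [h2, Finset.sum_mul, Finset.sum_mul]
      refine Finset.sum_congr rfl fun α _ => ?_
      have h4 : algebraMap S L (∏ i, y i ^ (α i : ℕ)) = m α := by
        rw [map_prod, hm]
        exact Finset.prod_congr rfl fun i _ => map_pow _ _ _
      have h5 : algebraMap S L b * algebraMap S L b ^ (p - 1) = algebraMap S L b ^ p := by
        rw [← pow_succ', Nat.sub_add_cancel (Nat.one_le_iff_ne_zero.2 hp)]
      rw [map_mul, map_pow, h4, mul_assoc, h5, div_pow, mul_right_comm,
        div_mul_cancel₀ _ (pow_ne_zero p hb0)]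
    rw [h1]
    refine Submodule.sum_mem _ fun α _ => ?_
    have h4 : (algebraMap S L (c α) / algebraMap S L b) ^ p ∈ (frobenius L p).fieldRange :=
      ⟨algebraMap S L (c α) / algebraMap S L b, rfl⟩
    exact Submodule.smul_mem _ (⟨_, h4⟩ : (frobenius L p).fieldRange)
      (Submodule.subset_span ⟨α, rfl⟩)
  have hfin : FiniteDimensional (frobenius L p).fieldRange L :=
    ⟨⟨Finset.univ.image m, by rw [Finset.coe_image, Finset.coe_univ, Set.image_univ, hspan]⟩⟩
  refine ⟨hfin, ?_⟩
  have h5 := finrank_range_le_card (R := (frobenius L p).fieldRange) m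
  rw [Set.finrank, hspan, finrank_top] at h5
  simpa using h5

theorem powerSeries_pow (p : ℕ) [Fact p.Prime] (k : Type u) [Field k] [CharP k p]
    [PerfectRing k p] {s : ℕ} (f : MvPowerSeries (Fin s) k) :
    ∃ g : (Fin s → Fin p) → MvPowerSeries (Fin s) k,
      f = ∑ α, g α ^ p * ∏ i, MvPowerSeries.X i ^ (α i : ℕ) := by
  classical
  have hp : p ≠ 0 := (Fact.out : p.Prime).ne_zero
  set E : (Fin s → Fin p) → (Fin s →₀ ℕ) :=
    fun α => Finsupp.equivFunOnFinite.symm fun i => (α i : ℕ) with hE
  have hEi : ∀ α i, E α i = (α i : ℕ) := fun α i => rfl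
  set g : (Fin s → Fin p) → MvPowerSeries (Fin s) k := fun α => fun β =>
    (frobeniusEquiv k p).symm (MvPowerSeries.coeff (E α + p • β) f) with hg
  have hgc : ∀ α β, MvPowerSeries.coeff β (g α) =
      (frobeniusEquiv k p).symm (MvPowerSeries.coeff (E α + p • β) f) := fun α β => rfl
  have hg1 : ∀ α β, MvPowerSeries.coeff (p • β) (g α ^ p) =
      MvPowerSeries.coeff (E α + p • β) f := by
    intro α β
    rw [← MvPowerSeries.map_frobenius_expand p hp, MvPowerSeries.coeff_map,
      MvPowerSeries.coeff_expand_smul, hgc]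
    exact frobenius_apply_frobeniusEquiv_symm k p _
  have hg0 : ∀ α γ i, ¬ p ∣ γ i → MvPowerSeries.coeff γ (g α ^ p) = 0 := by
    intro α γ i h
    rw [← MvPowerSeries.map_frobenius_expand p hp, MvPowerSeries.coeff_map,
      MvPowerSeries.coeff_expand_of_not_dvd p hp _ h, map_zero]
  have hX : ∀ α : Fin s → Fin p, ∏ i, (MvPowerSeries.X i : MvPowerSeries (Fin s) k) ^ (α i : ℕ) =
      MvPowerSeries.monomial (E α) 1 := by
    intro α
    rw [MvPowerSeries.monomial_eq', Finsupp.prod_fintype _ _ (fun i => pow_zero _)]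
    simp [hEi]
  refine ⟨g, ?_⟩
  ext γ
  rw [map_sum]
  set α₀ : Fin s → Fin p := fun i => ⟨γ i % p, Nat.mod_lt _ (Nat.pos_of_ne_zero hp)⟩ with hα₀
  set β₀ : Fin s →₀ ℕ := γ.mapRange (fun n => n / p) (Nat.zero_div p) with hβ₀
  have hγ : γ = E α₀ + p • β₀ := by
    ext i
    rw [Finsupp.add_apply, hEi, Finsupp.smul_apply, hβ₀, Finsupp.mapRange_apply, smul_eq_mul]
    exact (Nat.mod_add_div (γ i) p).symm
  rw [Finset.sum_eq_single α₀]
  · rw [hX, MvPowerSeries.coeff_mul_monomial, if_pos (by rw [hγ]; exact le_self_add), mul_one]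
    have h1 : γ - E α₀ = p • β₀ := by
      conv_lhs => rw [hγ]
      exact add_tsub_cancel_left _ _
    rw [h1, hg1, ← hγ]
  · intro α _ hne
    rw [hX, MvPowerSeries.coeff_mul_monomial]
    split_ifs with h
    · obtain ⟨i, hi⟩ : ∃ i, α i ≠ α₀ i := by
        by_contra hcon
        push Not at hcon
        exact hne (funext hcon)
      rw [hg0 α _ i, zero_mul]
      intro hd
      apply hi
      apply Fin.ext
      have h1 : (α i : ℕ) ≤ γ i := h i
      rw [Finsupp.tsub_apply, hEi] at hd
      obtain ⟨c, hc⟩ := hd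
      have h2 : γ i = α i + p * c := by omega
      change (α i : ℕ) = γ i % p
      rw [h2, Nat.add_mul_mod_self_left, Nat.mod_eq_of_lt (α i).2]
    · rfl
  · intro h
    exact absurd (Finset.mem_univ _) h

end Pool.Agent.LCD
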