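import Mathlib

/-! # G3: generators of a field over its p-th powers; separability

Recipe. `exists_gens`: by induction on `j ≤ s`: there are `u_1, …, u_j ∈ M` such that the closure of `K^p ∪ {u_1, …, u_j}` is `⊤` or has degree `p^j` over
`K^p` (more precisely `[closure : K^p] ≥ p^j`). Step: if `E = K^p(u_1, …, u_j) ≠ ⊤`, there is `m ∈ M` not in `E` (as `K^p(M) = ⊤`); `[E(m) : E]` is `> 1` and
divides `p`-powers: `m^p ∈ K^p ⊆ E`, so the minimal polynomial of `m` over `E` divides `X^p - m^p = (X - m)^p`; it is irreducible of degree `p`
(`X ^ p - a` irreducible if `a` is not a `p`-th power of `E`: `X_pow_sub_C_irreducible_of_prime` or `minpoly_eq_X_pow_sub_C...`; or: `[E(m):E]` is a power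
of `p` (purely inseparable) different from 1). At the end `p^s ≤ [E : K^p] ≤ [K : K^p] ≤ p^s`, so `E = ⊤`. When `⊤` is reached early, fill up with an
element of `M` (`hM0 : 0 ∈ M`). `isSeparable_of_closure`: let `F = separableClosure L K` (`Mathlib/FieldTheory/SeparableClosure.lean`): `K / F` is purely
inseparable and finite, so `K^(p^n) ⊆ F` for some `n`; on the other hand `K = L K^p = L (L K^p)^p = L K^(p^2) = … = L K^(p^n) ⊆ F`: by induction the
closure of `range (frobenius^n) ∪ range (algebraMap L K)` is `⊤`. So `F = ⊤`. -/

set_option autoImplicit false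

namespace Pool.Agent.LCD

universe u

private theorem adjoin_eq_top_iff (p : ℕ) [Fact p.Prime] {K : Type u} [Field K] [CharP K p]
    (M : Set K) : IntermediateField.adjoin (frobenius K p).fieldRange M = ⊤ ↔
      Subfield.closure (Set.range (frobenius K p) ∪ M) = ⊤ := by
  have h1 : (IntermediateField.adjoin (frobenius K p).fieldRange M).toSubfield =
      Subfield.closure (Set.range (frobenius K p) ∪ M) := by
    rw [IntermediateField.adjoin_toSubfield]
    congr 2
    ext x
    constructor
    · rintro ⟨⟨y, z, hz⟩, rfl⟩
      exact ⟨z, hz⟩
    · rintro ⟨z, rfl⟩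
      exact ⟨⟨frobenius K p z, z, rfl⟩, rfl⟩
  have h2 : (⊤ : IntermediateField (frobenius K p).fieldRange K).toSubfield = ⊤ := rfl
  rw [← h1, ← h2]
  exact IntermediateField.toSubfield_injective.eq_iff.symm

private theorem finrank_step (p : ℕ) [Fact p.Prime] {K : Type u} [Field K] [CharP K p]
    [FiniteDimensional (frobenius K p).fieldRange K]
    (E : IntermediateField (frobenius K p).fieldRange K) (m : K) (hm : m ∉ E) :
    Module.finrank (frobenius K p).fieldRange (IntermediateField.adjoin E {m}) =
      Module.finrank (frobenius K p).fieldRange E * p := by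
  have hp : p.Prime := Fact.out
  have hmp : m ^ p ∈ E := by
    have h1 : algebraMap (frobenius K p).fieldRange K ⟨m ^ p, m, rfl⟩ ∈ E := E.algebraMap_mem _
    exact h1
  have hirr : Irreducible (Polynomial.X ^ p - Polynomial.C (⟨m ^ p, hmp⟩ : E)) := by
    refine X_pow_sub_C_irreducible_of_prime hp fun b hb => hm ?_
    have h1 : (b : K) ^ p = m ^ p := congrArg (fun x : E => (x : K)) hb
    have h2 : (b : K) = m := frobenius_inj K p h1
    rw [← h2]
    exact b.2
  have hmon : (Polynomial.X ^ p - Polynomial.C (⟨m ^ p, hmp⟩ : E)).Monic :=
    Polynomial.monic_X_pow_sub_C _ hp.ne_zero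
  have haev : Polynomial.aeval m (Polynomial.X ^ p - Polynomial.C (⟨m ^ p, hmp⟩ : E)) = 0 := by
    rw [map_sub, map_pow, Polynomial.aeval_X, Polynomial.aeval_C]
    exact sub_self _
  have hmin := minpoly.eq_of_irreducible_of_monic hirr haev hmon
  have hint : IsIntegral E m := IsIntegral.of_finite E m
  have hdeg : Module.finrank E (IntermediateField.adjoin E {m}) = p := by
    rw [IntermediateField.adjoin.finrank hint, ← hmin, Polynomial.natDegree_X_pow_sub_C]
  rw [← Module.finrank_mul_finrank (frobenius K p).fieldRange E
    (IntermediateField.adjoin E {m}), hdeg]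

theorem exists_gens (p : ℕ) [Fact p.Prime] {K : Type u} [Field K] [CharP K p] {s : ℕ}
    (hfin : FiniteDimensional (frobenius K p).fieldRange K)
    (hq : Module.finrank (frobenius K p).fieldRange K ≤ p ^ s) (M : Set K) (hM0 : (0 : K) ∈ M)
    (hM : Subfield.closure (Set.range (frobenius K p) ∪ M) = ⊤) :
    ∃ u : Fin s → K, (∀ i, u i ∈ M) ∧
      Subfield.closure (Set.range (frobenius K p) ∪ Set.range u) = ⊤ := by
  have hstep : ∀ j : ℕ, ∃ u : Fin j → K, (∀ i, u i ∈ M) ∧
      (IntermediateField.adjoin (frobenius K p).fieldRange (Set.range u) = ⊤ ∨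
        p ^ j ≤ Module.finrank (frobenius K p).fieldRange
          (IntermediateField.adjoin (frobenius K p).fieldRange (Set.range u))) := by
    intro j
    induction j with
    | zero =>
      refine ⟨Fin.elim0, fun i => i.elim0, Or.inr ?_⟩
      rw [pow_zero]
      exact Module.finrank_pos
    | succ j ih =>
      obtain ⟨u, huM, hu⟩ := ih
      by_cases htop : IntermediateField.adjoin (frobenius K p).fieldRange (Set.range u) = ⊤
      · refine ⟨Fin.snoc u 0, ?_, Or.inl ?_⟩
        · intro i
          refine Fin.lastCases ?_ (fun i => ?_) i
          · rw [Fin.snoc_last]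
            exact hM0
          · rw [Fin.snoc_castSucc]
            exact huM i
        · rw [eq_top_iff, ← htop]
          refine IntermediateField.adjoin.mono _ _ _ ?_
          rintro _ ⟨i, rfl⟩
          exact ⟨i.castSucc, Fin.snoc_castSucc (α := fun _ => K) _ _ _⟩
      · have hu' := hu.resolve_left htop
        obtain ⟨m, hmM, hm⟩ : ∃ m ∈ M, m ∉ IntermediateField.adjoin
            (frobenius K p).fieldRange (Set.range u) := by
          by_contra hcon
          push Not at hcon
          refine htop ?_
          rw [eq_top_iff, ← (adjoin_eq_top_iff p M).2 hM]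
          exact IntermediateField.adjoin_le_iff.2 hcon
        refine ⟨Fin.snoc u m, ?_, Or.inr ?_⟩
        · intro i
          refine Fin.lastCases ?_ (fun i => ?_) i
          · rw [Fin.snoc_last]
            exact hmM
          · rw [Fin.snoc_castSucc]
            exact huM i
        · have hrange : Set.range (Fin.snoc u m : Fin (j + 1) → K) = Set.range u ∪ {m} := by
            ext x
            constructor
            · rintro ⟨i, rfl⟩
              refine Fin.lastCases ?_ (fun i => ?_) i
              · rw [Fin.snoc_last]
                exact Or.inr rfl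
              · rw [Fin.snoc_castSucc]
                exact Or.inl ⟨i, rfl⟩
            · rintro (⟨i, rfl⟩ | h)
              · exact ⟨i.castSucc, Fin.snoc_castSucc (α := fun _ => K) _ _ _⟩
              · rw [Set.mem_singleton_iff] at h
                subst h
                exact ⟨Fin.last j, Fin.snoc_last (α := fun _ => K) _ _⟩
          have h1 := finrank_step p _ m hm
          rw [hrange, ← IntermediateField.adjoin_adjoin_left]
          have h2 : Module.finrank (frobenius K p).fieldRange
              ((IntermediateField.adjoin (IntermediateField.adjoin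
                (frobenius K p).fieldRange (Set.range u)) {m}).restrictScalars
                  (frobenius K p).fieldRange) =
              Module.finrank (frobenius K p).fieldRange
                (IntermediateField.adjoin (frobenius K p).fieldRange (Set.range u)) * p := h1
          rw [h2, pow_succ]
          exact Nat.mul_le_mul_right p hu'
  obtain ⟨u, huM, hu⟩ := hstep s
  refine ⟨u, huM, (adjoin_eq_top_iff p _).1 ?_⟩
  rcases hu with hu | hu
  · exact hu
  · refine IntermediateField.eq_of_le_of_finrank_le le_top ?_
    rw [IntermediateField.finrank_top']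
    exact hq.trans hu

theorem isSeparable_of_closure (p : ℕ) [Fact p.Prime] {L K : Type u} [Field L] [Field K]
    [Algebra L K] [CharP K p] [FiniteDimensional L K]
    (h : Subfield.closure (Set.range (frobenius K p) ∪ Set.range (algebraMap L K)) = ⊤) :
    Algebra.IsSeparable L K := by
  rw [← Algebra.FormallyUnramified.iff_isSeparable]
  refine ⟨?_⟩
  have hD : ∀ x : K, KaehlerDifferential.D L K x = 0 := by
    intro x
    have hx : x ∈ Subfield.closure (Set.range (frobenius K p) ∪ Set.range (algebraMap L K)) := by
      rw [h]
      exact Subfield.mem_top x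
    induction hx using Subfield.closure_induction with
    | mem x hx =>
      rcases hx with ⟨y, rfl⟩ | ⟨y, rfl⟩
      · rw [frobenius_def, Derivation.leibniz_pow, ← Nat.cast_smul_eq_nsmul K, CharP.cast_eq_zero K p,
          zero_smul]
      · exact Derivation.map_algebraMap _ _
    | one => exact Derivation.map_one_eq_zero _
    | add x y _ _ hx hy => rw [map_add, hx, hy, add_zero]
    | neg x _ hx => rw [map_neg, hx, neg_zero]
    | inv x _ hx => rw [Derivation.leibniz_inv, hx, smul_zero]
    | mul x y _ _ hx hy => rw [Derivation.leibniz, hx, hy, smul_zero, smul_zero, add_zero]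
  have hsub : (⊤ : Submodule K (Ω[K⁄L])) = ⊥ := by
    rw [← KaehlerDifferential.span_range_derivation, Submodule.span_eq_bot]
    rintro _ ⟨x, rfl⟩
    exact hD x
  exact (Submodule.subsingleton_iff K).1 (subsingleton_of_bot_eq_top hsub.symm)

end Pool.Agent.LCD
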