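import Pool.Agent.Lib.LCD.Base
import Pool.Agent.Lib.LCD.G1
import Pool.Agent.Lib.LCD.G2
import Pool.Agent.Lib.LCD.G3

/-! # Complete local domains of characteristic p with perfect coefficient field: the regular base,
separable field of fractions (Cohen-Gabber) -/

set_option autoImplicit false

namespace Pool.Agent.LCD

open IsLocalRing

universe u

/-- The regular base of a complete local ring with a coefficient field. -/
theorem exists_subalgebra_eq (k C : Type u) [Field k] [CommRing C] [IsLocalRing C]
    [IsNoetherianRing C] [IsAdicComplete (maximalIdeal C) C] [Algebra k C]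
    (hres : ∀ c : C, ∃ a : k, c - algebraMap k C a ∈ maximalIdeal C) {d : ℕ}
    (hd : ringKrullDim C = d) (x : Fin d → C) (hx : ∀ i, x i ∈ maximalIdeal C) {N : ℕ}
    (hN : maximalIdeal C ^ N ≤ Ideal.span (Set.range x)) :
    ∃ φ : MvPowerSeries (Fin d) k →ₐ[k] C, (∀ i, φ (MvPowerSeries.X i) = x i) ∧
      Module.Finite φ.range C ∧ (∃ _ : IsRegularLocalRing φ.range,
        ringKrullDim φ.range = d ∧
        (∀ s : φ.range, s ∈ maximalIdeal φ.range ↔ (s : C) ∈ maximalIdeal C)) ∧
      ∀ i, x i ≠ 0 := by
  have i1 : IsPrecomplete (Ideal.span {(0 : k)}) k := by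
    rw [Ideal.span_singleton_eq_bot.2 rfl]
    infer_instance
  obtain ⟨φ, hφ, h1, h2, h3⟩ := exists_subalgebra k C (0 : k)
    (by rw [map_zero]; exact zero_mem _) (fun a ha => by
      by_contra hne
      push Not at hne
      have ha0 : a ≠ 0 := by
        rintro rfl
        exact hne 0 (by rw [mul_zero])
      exact (IsLocalRing.mem_maximalIdeal _).1 ha ((IsUnit.mk0 a ha0).map (algebraMap k C)))
    hres x hx (N := N) (hN.trans (Ideal.span_mono Set.subset_union_right))
  have i2 : FaithfulSMul φ.range C := by
    rw [faithfulSMul_iff_algebraMap_injective]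
    exact Subtype.val_injective
  have hxm : ∀ i, x i ∈ φ.range := fun i => ⟨_, hφ i⟩
  obtain ⟨-, hreg, hdim, hmax, hz⟩ := regular_of_integral φ.range C hd le_rfl
    (fun i => (⟨x i, hxm i⟩ : φ.range)) (fun i => hx i) (by
      intro s hs
      obtain ⟨b, -, g, hg, hsum⟩ := h3 s s.2 hs
      rw [map_zero, zero_mul, zero_add] at hsum
      have h4 : s = ∑ i, (⟨g i, hg i⟩ : φ.range) * ⟨x i, hxm i⟩ := by
        apply Subtype.ext
        rw [hsum, AddSubmonoidClass.coe_finsetSum]
        exact Finset.sum_congr rfl fun i _ => mul_comm _ _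
      rw [h4]
      exact Ideal.sum_mem _ fun i _ => Ideal.mul_mem_left _ _ (Ideal.subset_span ⟨i, rfl⟩))
  refine ⟨φ, hφ, h2, ⟨hreg, hdim, hmax⟩, fun i hi => hz i ?_⟩
  have h5 : (⟨x i, hxm i⟩ : φ.range) = 0 := Subtype.ext hi
  rw [h5]
  exact zero_mem _

/-- The field of fractions of a finite extension. -/
theorem finiteDimensional_frac (S C K : Type u) [CommRing S] [IsDomain S] [CommRing C]
    [IsDomain C] [Field K] [Algebra S C] [Algebra C K] [IsFractionRing C K] [Algebra S K]
    [IsScalarTower S C K] [Module.Finite S C] [FaithfulSMul S C]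
    [Algebra (FractionRing S) K] [IsScalarTower S (FractionRing S) K] :
    FiniteDimensional (FractionRing S) K := by
  have i1 : FaithfulSMul C K :=
    (faithfulSMul_iff_algebraMap_injective C K).2 (IsFractionRing.injective C K)
  have i2 : FaithfulSMul S K := by
    rw [faithfulSMul_iff_algebraMap_injective, IsScalarTower.algebraMap_eq S C K]
    exact (IsFractionRing.injective C K).comp (FaithfulSMul.algebraMap_injective S C)
  have i3 : Algebra.IsIntegral S C := inferInstance
  have h1 : Algebra.IsAlgebraic S K := (IsFractionRing.isAlgebraic_iff' S C K).1 inferInstance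
  have h2 : Algebra.IsAlgebraic (FractionRing S) K :=
    (IsFractionRing.comap_isAlgebraic_iff (A := S) (C := K)).1 h1
  obtain ⟨F, hF⟩ := (Module.Finite.fg_top : (⊤ : Submodule S C).FG)
  let E : IntermediateField (FractionRing S) K :=
    IntermediateField.adjoin (FractionRing S) (algebraMap C K '' (F : Set C))
  have h3 : FiniteDimensional (FractionRing S) E :=
    IntermediateField.finiteDimensional_adjoin (S := algebraMap C K '' (F : Set C))
      fun x _ => (Algebra.IsAlgebraic.isAlgebraic (R := FractionRing S) x).isIntegral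
  have h4 : ∀ c : C, algebraMap C K c ∈ E := by
    intro c
    have hc : c ∈ Submodule.span S (F : Set C) := by rw [hF]; trivial
    induction hc using Submodule.span_induction with
    | mem x hx => exact IntermediateField.subset_adjoin _ _ ⟨x, hx, rfl⟩
    | zero => rw [map_zero]; exact zero_mem _
    | add a b _ _ ha hb => rw [map_add]; exact add_mem ha hb
    | smul s a _ ha =>
      rw [Algebra.smul_def, map_mul, ← IsScalarTower.algebraMap_apply S C K,
        IsScalarTower.algebraMap_apply S (FractionRing S) K]
      exact mul_mem (E.algebraMap_mem _) ha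
  have h5 : E = ⊤ := by
    rw [eq_top_iff]
    intro f _
    obtain ⟨a, b, hb, rfl⟩ := IsFractionRing.div_surjective (A := C) f
    exact div_mem (h4 a) (h4 b)
  rw [h5] at h3
  exact LinearEquiv.finiteDimensional
    (IntermediateField.topEquiv (F := FractionRing S) (E := K)).toLinearEquiv

/-- Cohen-Gabber: the field of fractions of a complete local domain with a perfect coefficient
field is separable over the one of a regular base ring. -/
theorem exists_separable_base (p : ℕ) [Fact p.Prime] (k C : Type u) [Field k] [PerfectField k]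
    [CharP k p] [CommRing C] [IsDomain C] [CharP C p] [IsLocalRing C] [IsNoetherianRing C]
    [IsAdicComplete (maximalIdeal C) C] [Algebra k C]
    (hres : ∀ c : C, ∃ a : k, c - algebraMap k C a ∈ maximalIdeal C) {d : ℕ}
    (hd : ringKrullDim C = d) (K : Type u) [Field K] [Algebra C K] [IsFractionRing C K] :
    ∃ S : Subalgebra k C, Module.Finite S C ∧ (∃ _ : IsRegularLocalRing S,
        ringKrullDim S = d ∧ (∀ s : S, s ∈ maximalIdeal S ↔ (s : C) ∈ maximalIdeal C)) ∧
      ∀ (_ : Algebra (FractionRing S) K), IsScalarTower S (FractionRing S) K →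
        Algebra.IsSeparable (FractionRing S) K := by
  classical
  have i0 : PerfectRing k p := inferInstance
  have iK : CharP K p :=
    (RingHom.charP_iff (algebraMap C K) (IsFractionRing.injective C K) p).1 inferInstance
  obtain ⟨y, N, hy, hN⟩ := exists_sop C hd
  obtain ⟨φ, hφ, hfin, -, hy0⟩ := exists_subalgebra_eq k C hres hd y hy hN
  -- the degree of `K` over `K ^ p`
  have hK : FiniteDimensional (frobenius K p).fieldRange K ∧
      Module.finrank (frobenius K p).fieldRange K ≤ p ^ d := by
    have j1 : FaithfulSMul φ.range C := by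
      rw [faithfulSMul_iff_algebraMap_injective]
      exact Subtype.val_injective
    have j2 : FaithfulSMul φ.range K := by
      rw [faithfulSMul_iff_algebraMap_injective, IsScalarTower.algebraMap_eq φ.range C K]
      exact (IsFractionRing.injective C K).comp Subtype.val_injective
    let L := FractionRing φ.range
    let j3 : Algebra L K := FractionRing.liftAlgebra φ.range K
    have j4 : IsScalarTower φ.range L K := FractionRing.isScalarTower_liftAlgebra φ.range K
    have j5 : FiniteDimensional L K := finiteDimensional_frac φ.range C K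
    have j6 : CharP φ.range p :=
      (RingHom.charP_iff (algebraMap φ.range C) Subtype.val_injective p).2 inferInstance
    have j7 : CharP L p :=
      (RingHom.charP_iff (algebraMap L K) (algebraMap L K).injective p).2 inferInstance
    have hS : ∀ f : φ.range, ∃ g : (Fin d → Fin p) → φ.range, f = ∑ α, g α ^ p *
        ∏ i, (⟨y i, ⟨_, hφ i⟩⟩ : φ.range) ^ (α i : ℕ) := by
      rintro ⟨_, F, rfl⟩
      obtain ⟨g, hg⟩ := powerSeries_pow p k F
      refine ⟨fun α => φ.rangeRestrict (g α), ?_⟩
      apply Subtype.ext
      rw [AddSubmonoidClass.coe_finsetSum]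
      change φ F = _
      rw [hg, map_sum]
      refine Finset.sum_congr rfl fun α _ => ?_
      rw [map_mul, map_pow, map_prod, MulMemClass.coe_mul, SubmonoidClass.coe_pow,
        SubmonoidClass.coe_finsetProd]
      congr 1
      refine Finset.prod_congr rfl fun i _ => ?_
      rw [map_pow, hφ, SubmonoidClass.coe_pow]
    obtain ⟨h1, h2⟩ := finrank_frobenius_frac p φ.range L _ hS
    exact finrank_frobenius p h1 h2
  -- generators of `K` over `K ^ p` in the maximal ideal
  have hroot : ∀ a : k, ∃ b : k, b ^ p = a := fun a => by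
    obtain ⟨b, hb⟩ := (PerfectRing.bijective_frobenius (R := k) (p := p)).2 a
    exact ⟨b, hb⟩
  have hMtop : Subfield.closure (Set.range (frobenius K p) ∪
      algebraMap C K '' (maximalIdeal C : Set C)) = ⊤ := by
    have h1 : ∀ c : C, algebraMap C K c ∈ Subfield.closure (Set.range (frobenius K p) ∪
      algebraMap C K '' (maximalIdeal C : Set C)) := by
      intro c
      obtain ⟨a, ha⟩ := hres c
      obtain ⟨b, rfl⟩ := hroot a
      have h2 : algebraMap C K c = frobenius K p (algebraMap C K (algebraMap k C b)) +
          algebraMap C K (c - algebraMap k C (b ^ p)) := by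
        rw [frobenius_def, map_sub, map_pow, map_pow]
        ring
      rw [h2]
      exact add_mem (Subfield.subset_closure (Or.inl ⟨_, rfl⟩))
        (Subfield.subset_closure (Or.inr ⟨_, ha, rfl⟩))
    rw [eq_top_iff]
    intro f _
    obtain ⟨a, b, hb, rfl⟩ := IsFractionRing.div_surjective (A := C) f
    exact div_mem (h1 a) (h1 b)
  obtain ⟨u, hu, hutop⟩ := exists_gens p hK.1 hK.2 (algebraMap C K '' (maximalIdeal C : Set C))
    ⟨0, zero_mem _, map_zero _⟩ hMtop
  choose u' hu' hu'' using hu
  -- the new parameters
  let x : Fin d → C := fun i => y i ^ p * (1 + u' i)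
  have hp0 : p ≠ 0 := (Fact.out : p.Prime).ne_zero
  have hxm : ∀ i, x i ∈ maximalIdeal C := fun i =>
    Ideal.mul_mem_right _ _ (Ideal.pow_mem_of_mem _ (hy i) p (Nat.pos_of_ne_zero hp0))
  have hunit : ∀ i, IsUnit (1 + u' i) := by
    intro i
    by_contra h
    have h1 : (1 : C) ∈ maximalIdeal C := by
      have h2 := sub_mem ((IsLocalRing.mem_maximalIdeal _).2 h) (hu' i)
      rwa [add_sub_cancel_right] at h2
    exact (Ideal.ne_top_iff_one _).1 (IsLocalRing.maximalIdeal.isMaximal C).ne_top h1
  obtain ⟨N', hN'⟩ := exists_pow_le_of_radical C y x hN (by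
    intro i
    refine ⟨p, ?_⟩
    obtain ⟨v, hv⟩ := (hunit i).exists_right_inv
    have h1 : y i ^ p = x i * v := by
      change _ = y i ^ p * (1 + u' i) * v
      rw [mul_assoc, hv, mul_one]
    rw [h1]
    exact Ideal.mul_mem_right _ _ (Ideal.subset_span ⟨i, rfl⟩))
  obtain ⟨ψ, hψ, hfin', ⟨hreg, hdim, hmax⟩, -⟩ := exists_subalgebra_eq k C hres hd x hxm hN'
  refine ⟨ψ.range, hfin', ⟨hreg, hdim, hmax⟩, ?_⟩
  intro j3 j4
  have j1 : FaithfulSMul ψ.range C := by
    rw [faithfulSMul_iff_algebraMap_injective]
    exact Subtype.val_injective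
  have j5 : FiniteDimensional (FractionRing ψ.range) K := finiteDimensional_frac ψ.range C K
  refine isSeparable_of_closure p (L := FractionRing ψ.range) (K := K) ?_
  rw [eq_top_iff, ← hutop, Subfield.closure_le]
  have hx' : ∀ i, algebraMap C K (x i) ∈ Subfield.closure (Set.range (frobenius K p) ∪
      Set.range (algebraMap (FractionRing ψ.range) K)) := by
    intro i
    refine Subfield.subset_closure (Or.inr ⟨algebraMap ψ.range _ ⟨x i, ⟨_, hψ i⟩⟩, ?_⟩)
    rw [← IsScalarTower.algebraMap_apply, IsScalarTower.algebraMap_apply ψ.range C K]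
    rfl
  rintro f (hf | ⟨i, rfl⟩)
  · exact Subfield.subset_closure (Or.inl hf)
  · have h1 : u i = algebraMap C K (x i) / frobenius K p (algebraMap C K (y i)) - 1 := by
      have h2 : algebraMap C K (y i) ≠ 0 := by
        intro h
        exact hy0 i (IsFractionRing.injective C K (h.trans (map_zero _).symm))
      rw [frobenius_def, eq_sub_iff_add_eq, eq_div_iff (pow_ne_zero p h2), ← hu'']
      simp only [x, map_mul, map_pow, map_add, map_one]
      ring
    change u i ∈ Subfield.closure _
    rw [h1]
    exact sub_mem (div_mem (hx' i) (Subfield.subset_closure (Or.inl ⟨_, rfl⟩))) (one_mem _)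

end Pool.Agent.LCD
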