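import Pool.Agent.Lib.LCD.A1
import Pool.Agent.Lib.LCD.EQ1
import Pool.Agent.Lib.LCD.T1
import Pool.Agent.Lib.LUC.H3
import Pool.Agent.Lib.LUC.F2

/-! # Log uniformization over complete local domains of characteristic p with perfect residue field -/

set_option autoImplicit false

namespace Pool.Agent.LCD

open IsLocalRing
open Pool.Agent.H15JM (RVal)
open Pool.Agent.LU1 (VPos)
open Pool.Agent.LU2 (IsR1 IndVal IndRes Rel)
open Pool.Agent.LUC (LUrV LUs)

universe u

/-- A valuation ring of a real valuation has rank one. -/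
theorem isR1_of_real {K : Type u} [Field K] {V : ValuationSubring K} {v : RVal K}
    (hV : ∀ f : K, f ∈ V ↔ v.Ge 0 f) (hpos : ∃ c : K, c ≠ 0 ∧ 0 < v c) : IsR1 V := by
  obtain ⟨c, hc0, hc⟩ := hpos
  refine ⟨?_, fun W hW => ?_⟩
  · rintro rfl
    have h1 := (hV c⁻¹).1 (ValuationSubring.mem_top _) (inv_ne_zero hc0)
    rw [v.map_inv hc0] at h1
    linarith
  · by_cases h : W ≤ V
    · exact Or.inl (le_antisymm h hW)
    · right
      obtain ⟨f, hfW, hfV⟩ := SetLike.not_le_iff_exists.1 h
      have hf0 : f ≠ 0 := by
        rintro rfl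
        exact hfV (zero_mem _)
      have hf : v f < 0 := by
        by_contra hcon
        exact hfV ((hV f).2 fun _ => not_lt.1 hcon)
      rw [eq_top_iff]
      intro g _
      by_cases hg : g = 0
      · rw [hg]; exact zero_mem _
      · obtain ⟨n, hn⟩ := exists_nat_gt (v g / v f)
        have h1 : g * (f ^ n)⁻¹ ∈ V := by
          rw [hV]
          intro _
          rw [v.map_mul hg (inv_ne_zero (pow_ne_zero n hf0)), v.map_inv (pow_ne_zero n hf0),
            v.map_pow hf0]
          have h2 : n * v f < v g := by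
            rw [div_lt_iff_of_neg hf] at hn
            exact hn
          linarith
        have h3 : g = g * (f ^ n)⁻¹ * f ^ n := by
          rw [inv_mul_cancel_right₀ (pow_ne_zero n hf0)]
        rw [h3]
        exact mul_mem (hW h1) (pow_mem hfW n)

theorem lurV_complete_eq (p : ℕ) (hp : p.Prime) {C K : Type u} [CommRing C] [IsDomain C]
    [CharP C p] [IsLocalRing C] [IsNoetherianRing C] [IsAdicComplete (maximalIdeal C) C]
    [PerfectField (ResidueField C)] [Field K] [Algebra C K] [IsFractionRing C K] {m : ℕ}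
    (hdim : ringKrullDim C = m) (V : ValuationSubring K) (hR : IsR1 V)
    (hC : ∀ c : C, algebraMap C K c ∈ V)
    (hmC : ∀ c ∈ maximalIdeal C, V.valuation (algebraMap C K c) < 1) {r d : ℕ}
    (a : Fin r → K) (ha : IndVal V a) (b : Fin d → K) (hb : ∀ i, b i ∈ V)
    (hb' : ∀ P : MvPolynomial (Fin d) C, V.valuation (MvPolynomial.aeval b P) < 1 →
      ∀ α, P.coeff α ∈ maximalIdeal C) (hdef : m ≤ r + d + 1) : LUrV C V := by
  classical
  have i0 : Fact p.Prime := ⟨hp⟩
  obtain ⟨σ, hσ⟩ := exists_coeff_field p C
  let κ : Type u := ResidueField C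
  let i1 : Algebra κ C := σ.toAlgebra
  have i2 : CharP κ p := (CharP.charP_iff_prime_eq_zero hp).2 (by
    have h1 : (p : C) = 0 := CharP.cast_eq_zero C p
    have h2 := congrArg (residue C) h1
    rwa [map_natCast, map_zero] at h2)
  have hres : ∀ c : C, ∃ a : κ, c - algebraMap κ C a ∈ maximalIdeal C := by
    intro c
    refine ⟨residue C c, ?_⟩
    rw [← residue_eq_zero_iff, map_sub]
    change residue C c - residue C (σ (residue C c)) = 0
    rw [hσ, sub_self]
  obtain ⟨S, hfin, ⟨hreg, hSdim, hmax⟩, hsep⟩ := exists_separable_base p κ C hres hdim K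
  have j1 : FaithfulSMul S C := by
    rw [faithfulSMul_iff_algebraMap_injective]
    exact Subtype.val_injective
  have j2 : FaithfulSMul S K := by
    rw [faithfulSMul_iff_algebraMap_injective, IsScalarTower.algebraMap_eq S C K]
    exact (IsFractionRing.injective C K).comp Subtype.val_injective
  let L := FractionRing S
  let j3 : Algebra L K := FractionRing.liftAlgebra S K
  have j4 : IsScalarTower S L K := FractionRing.isScalarTower_liftAlgebra S K
  have j5 : FiniteDimensional L K := finiteDimensional_frac S C K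
  have j6 : Algebra.IsSeparable L K := hsep j3 j4
  let j7 : Algebra κ K := ((algebraMap C K).comp σ).toAlgebra
  have j8 : IsScalarTower κ S K := IsScalarTower.of_algebraMap_eq fun _ => rfl
  have j9 : Algebra.EssFiniteType C K := Algebra.EssFiniteType.of_isLocalization _ (nonZeroDivisors C)
  have j10 : Algebra.EssFiniteType S K := Algebra.EssFiniteType.comp S C K
  have j11 : Algebra.IsAlgebraic L K := inferInstance
  have j12 : Algebra.IsAlgebraic S K :=
    (IsFractionRing.comap_isAlgebraic_iff (A := S) (C := K)).2 j11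
  have hempty : IsTranscendenceBasis L ((↑) : (∅ : Set K) → K) := by
    obtain ⟨s, hs⟩ := exists_isTranscendenceBasis L K
    have h1 : IsEmpty s := hs.isEmpty_iff_isAlgebraic.2 j11
    have h2 : s = ∅ := Set.isEmpty_coe_sort.1 h1
    rwa [h2] at hs
  have hsep' : Algebra.IsSeparable (IntermediateField.adjoin L (∅ : Set K)) K :=
    Algebra.isSeparable_tower_top_of_isSeparable L _ K
  have htr : Algebra.trdeg S K = 0 := trdeg_eq_zero_iff.2 j12
  have hS : LUrV S V := by
    refine LUC.lurV_eq p hp (k := κ) (S := S) (K := K) ?_ hSdim ∅ hempty hsep' V hR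
      (fun s => hC s) (fun s hs => hmC _ ((hmax s).1 hs)) a ha b ⟨hb, ?_⟩ ?_
    · intro s
      obtain ⟨c, hc⟩ := hres s
      refine ⟨c, (hmax _).2 hc⟩
    · intro P hP
      have h1 : MvPolynomial.aeval b (MvPolynomial.map σ P) = MvPolynomial.aeval b P := by
        rw [MvPolynomial.aeval_def, MvPolynomial.eval₂_map]
        rfl
      rw [← h1] at hP
      have h2 := hb' _ hP
      ext α
      rw [MvPolynomial.coeff_zero]
      have h3 := h2 α
      rw [MvPolynomial.coeff_map, ← residue_eq_zero_iff] at h3
      rw [← hσ (MvPolynomial.coeff α P)]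
      exact h3
    · rw [htr, zero_add]
      exact_mod_cast hdef
  exact lurV_of_finite (S := S) V hS

end Pool.Agent.LCD
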