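import Pool.Agent.Lib.LCD.A3
import Pool.Agent.Lib.LCD.A4
import Pool.Agent.Lib.LCD.EQ2
import Pool.Agent.Lib.LUC.M7
import Pool.Agent.Lib.LUC.M7z

/-! # Log uniformization over complete local domains of mixed characteristic with perfect residue
field -/

set_option autoImplicit false

namespace Pool.Agent.LCD

open IsLocalRing
open Pool.Agent.H15JM (RVal)
open Pool.Agent.LU1 (VPos)
open Pool.Agent.LU2 (IsR1 IndVal IndRes Rel)
open Pool.Agent.LUC (LUrV LUs)
open Pool.Agent.LUM (kk)
open Polynomial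

universe u

/-- The regular base of a complete local domain of mixed characteristic. -/
theorem exists_subalgebra_mix (Λ C : Type u) [CommRing Λ] [IsNoetherianRing Λ] [CommRing C]
    [IsDomain C] [IsLocalRing C] [IsNoetherianRing C] [IsAdicComplete (maximalIdeal C) C]
    [Algebra Λ C] (ϖ : Λ) [IsPrecomplete (Ideal.span {ϖ}) Λ]
    (hϖ : algebraMap Λ C ϖ ∈ maximalIdeal C) (hϖ0 : algebraMap Λ C ϖ ≠ 0)
    (hker : ∀ a : Λ, algebraMap Λ C a ∈ maximalIdeal C → ∃ b, a = ϖ * b)
    (hres : ∀ c : C, ∃ a : Λ, c - algebraMap Λ C a ∈ maximalIdeal C) {m : ℕ}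
    (hd : ringKrullDim C = ((m + 1 : ℕ) : WithBot ℕ∞)) :
    ∃ S : Subalgebra Λ C, Module.Finite S C ∧ ∃ _ : IsRegularLocalRing S,
        ringKrullDim S = ((m + 1 : ℕ) : WithBot ℕ∞) ∧
        (∀ s : S, s ∈ maximalIdeal S ↔ (s : C) ∈ maximalIdeal C) ∧
        algebraMap Λ S ϖ ∉ maximalIdeal S ^ 2 := by
  classical
  obtain ⟨x, N, hx, hN⟩ := exists_sop_of_mem C hd _ hϖ0 hϖ
  obtain ⟨φ, hφ, h1, h2, h3⟩ := exists_subalgebra Λ C ϖ hϖ hker hres x hx hN
  have i2 : FaithfulSMul φ.range C := by
    rw [faithfulSMul_iff_algebraMap_injective]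
    exact Subtype.val_injective
  have hxm : ∀ i, x i ∈ φ.range := fun i => ⟨_, hφ i⟩
  let z : Fin (m + 1) → φ.range := Fin.cons (algebraMap Λ φ.range ϖ) fun i => ⟨x i, hxm i⟩
  obtain ⟨-, hreg, hdim, hmax, hz⟩ := regular_of_integral φ.range C hd le_rfl z (by
      intro i
      refine Fin.cases ?_ (fun j => ?_) i
      · exact hϖ
      · exact hx j) (by
      intro s hs
      obtain ⟨b, hb, g, hg, hsum⟩ := h3 s s.2 hs
      have h4 : s = (⟨b, hb⟩ : φ.range) * z 0 + ∑ i, (⟨g i, hg i⟩ : φ.range) * z (Fin.succ i) := by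
        apply Subtype.ext
        rw [hsum, AddMemClass.coe_add, AddSubmonoidClass.coe_finsetSum]
        congr 1
        · exact mul_comm _ _
        · exact Finset.sum_congr rfl fun i _ => mul_comm _ _
      rw [h4]
      exact add_mem (Ideal.mul_mem_left _ _ (Ideal.subset_span ⟨0, rfl⟩))
        (Ideal.sum_mem _ fun i _ => Ideal.mul_mem_left _ _ (Ideal.subset_span ⟨_, rfl⟩)))
  exact ⟨φ.range, h2, hreg, hdim, hmax, hz 0⟩

theorem lurV_complete_mix (p : ℕ) (hp : p.Prime) {C K : Type u} [CommRing C] [IsDomain C]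
    [CharZero C] [IsLocalRing C] [IsNoetherianRing C] [IsAdicComplete (maximalIdeal C) C]
    (hpC : (p : C) ∈ maximalIdeal C) [PerfectField (ResidueField C)] [Field K] [Algebra C K]
    [IsFractionRing C K] {m : ℕ} (hdim : ringKrullDim C = ((m + 1 : ℕ) : WithBot ℕ∞))
    (V : ValuationSubring K) (hR : IsR1 V) (hC : ∀ c : C, algebraMap C K c ∈ V)
    (hmC : ∀ c ∈ maximalIdeal C, V.valuation (algebraMap C K c) < 1)
    (a : Fin m → K) (ha : IndVal V a)
    (hra : ∀ x ∈ V, ∃ P : Polynomial C, P.Monic ∧ V.valuation (aeval x P) < 1) : LUrV C V := by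
  classical
  have i0 : Fact p.Prime := ⟨hp⟩
  let κ : Type u := ResidueField C
  have i2 : CharP κ p := (CharP.charP_iff_prime_eq_zero hp).2 (by
    have h2 := (residue_eq_zero_iff (p : C)).2 hpC
    rwa [map_natCast] at h2)
  obtain ⟨σ, hσ⟩ := exists_witt p C hpC
  obtain ⟨k1, k2, k3, k4, k5, k6, k7, k8, k9⟩ := witt_base p κ
  let Λ : Type u := WittVector p κ
  let i1 : Algebra Λ C := σ.toAlgebra
  have hσp : algebraMap Λ C (p : Λ) = (p : C) := map_natCast _ _
  have hp0 : (p : C) ≠ 0 := by exact_mod_cast hp.ne_zero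
  have hres : ∀ c : C, ∃ a : Λ, c - algebraMap Λ C a ∈ maximalIdeal C := by
    intro c
    obtain ⟨b, hb⟩ := k9 (residue C c)
    refine ⟨b, ?_⟩
    rw [← residue_eq_zero_iff, map_sub]
    change residue C c - residue C (σ b) = 0
    rw [hσ, hb, sub_self]
  have k10 : IsPrecomplete (Ideal.span {(p : Λ)}) Λ := k7.toIsPrecomplete
  obtain ⟨S, hfin, hreg, hSdim, hSmax, hϖ2⟩ := exists_subalgebra_mix Λ C (p : Λ)
    (by rw [hσp]; exact hpC) (by rw [hσp]; exact hp0) (by
      intro c hc
      refine k8 c ?_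
      rw [← hσ, residue_eq_zero_iff]
      exact hc) hres hdim
  have j1 : FaithfulSMul S C := by
    rw [faithfulSMul_iff_algebraMap_injective]
    exact Subtype.val_injective
  have j2 : FaithfulSMul S K := by
    rw [faithfulSMul_iff_algebraMap_injective, IsScalarTower.algebraMap_eq S C K]
    exact (IsFractionRing.injective C K).comp Subtype.val_injective
  let L := FractionRing S
  let j3 : Algebra L K := FractionRing.liftAlgebra S K
  have j4 : IsScalarTower S L K := FractionRing.isScalarTower_liftAlgebra S K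
  have j5 : FiniteDimensional L K := finiteDimensional_frac S C K
  have c1 : CharZero S := (algebraMap S C).charZero
  have c2 : CharZero L := charZero_of_injective_algebraMap (IsFractionRing.injective S L)
  have j6 : Algebra.IsSeparable L K := inferInstance
  let j7 : Algebra Λ K := ((algebraMap C K).comp σ).toAlgebra
  have j8 : IsScalarTower Λ S K := IsScalarTower.of_algebraMap_eq fun _ => rfl
  have j9 : Algebra.EssFiniteType C K :=
    Algebra.EssFiniteType.of_isLocalization _ (nonZeroDivisors C)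
  have j10 : Algebra.EssFiniteType S K := Algebra.EssFiniteType.comp S C K
  have j11 : Algebra.IsAlgebraic L K := inferInstance
  have j12 : Algebra.IsAlgebraic S K :=
    (IsFractionRing.comap_isAlgebraic_iff (A := S) (C := K)).2 j11
  have j13 : FaithfulSMul Λ S := by
    rw [faithfulSMul_iff_algebraMap_injective, injective_iff_map_eq_zero]
    intro c hc
    by_contra hne
    obtain ⟨n, u, hu⟩ := IsDiscreteValuationRing.associated_pow_irreducible hne k6
    have h1 : algebraMap Λ C ((p : Λ) ^ n) = 0 := by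
      rw [← hu, map_mul]
      have h2 : algebraMap Λ C c = 0 := congrArg (fun s : S => (s : C)) hc
      rw [h2, zero_mul]
    rw [map_pow, hσp] at h1
    exact pow_ne_zero n hp0 h1
  have hempty : IsTranscendenceBasis L ((↑) : (∅ : Set K) → K) := by
    obtain ⟨s, hs⟩ := exists_isTranscendenceBasis L K
    have h1 : IsEmpty s := hs.isEmpty_iff_isAlgebraic.2 j11
    have h2 : s = ∅ := Set.isEmpty_coe_sort.1 h1
    rwa [h2] at hs
  have hsep' : Algebra.IsSeparable (IntermediateField.adjoin L (∅ : Set K)) K :=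
    Algebra.isSeparable_tower_top_of_isSeparable L _ K
  have htr : Algebra.trdeg S K = ((0 : ℕ) : Cardinal) := by
    rw [trdeg_eq_zero_iff.2 j12, Nat.cast_zero]
  have hresS : ∀ s : S, ∃ c : Λ, s - algebraMap Λ S c ∈ maximalIdeal S := by
    intro s
    obtain ⟨c, hc⟩ := hres s
    exact ⟨c, (hSmax _).2 hc⟩
  have hpS : algebraMap Λ S (p : Λ) ∈ maximalIdeal S := (hSmax _).2 (by
    change algebraMap Λ C (p : Λ) ∈ maximalIdeal C
    rw [hσp]; exact hpC)
  have hraΛ : ∀ x ∈ V, ∃ P : Polynomial Λ, P.Monic ∧ V.valuation (aeval x P) < 1 := by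
    intro x hx
    obtain ⟨P, hP, hPx⟩ := hra x hx
    choose l hl using hres
    let R : Polynomial Λ := ∑ i ∈ Finset.range P.natDegree,
      Polynomial.C (l (P.coeff i)) * X ^ i
    have hR : R.degree < P.natDegree := by
      refine (Polynomial.degree_sum_le _ _).trans_lt ?_
      rw [Finset.sup_lt_iff (WithBot.bot_lt_coe _)]
      intro i hi
      refine (Polynomial.degree_C_mul_X_pow_le i _).trans_lt ?_
      exact_mod_cast Finset.mem_range.1 hi
    refine ⟨X ^ P.natDegree + R, Polynomial.monic_X_pow_add hR, ?_⟩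
    have h1 : aeval x (X ^ P.natDegree + R) = aeval x P -
        ∑ i ∈ Finset.range P.natDegree,
          algebraMap C K (P.coeff i - algebraMap Λ C (l (P.coeff i))) * x ^ i := by
      have h2 : aeval x P = x ^ P.natDegree +
          ∑ i ∈ Finset.range P.natDegree, algebraMap C K (P.coeff i) * x ^ i := by
        rw [Polynomial.aeval_eq_sum_range, Finset.sum_range_succ, hP.coeff_natDegree, one_smul,
          add_comm]
        simp only [Algebra.smul_def]
      rw [h2, map_add, map_pow, aeval_X, map_sum]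
      have h3 : ∀ i, aeval x (Polynomial.C (l (P.coeff i)) * X ^ i) =
          algebraMap C K (algebraMap Λ C (l (P.coeff i))) * x ^ i := by
        intro i
        rw [map_mul, map_pow, aeval_X, aeval_C]
        rfl
      simp only [h3, map_sub, sub_mul, Finset.sum_sub_distrib]
      ring
    rw [h1]
    refine (Valuation.map_sub _ _ _).trans_lt (max_lt hPx ?_)
    refine Valuation.map_sum_lt _ one_ne_zero fun i _ => ?_
    rw [map_mul, map_pow]
    have h4 := hmC _ (hl (P.coeff i))
    have h5 : V.valuation x ^ i ≤ 1 := pow_le_one' ((V.valuation_le_one_iff x).2 hx) i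
    exact (mul_le_of_le_one_right' h5).trans_lt h4
  have hS : LUrV S V := by
    by_cases hmax : ∃ Y : Fin (m + 1) → K, IndVal V Y
    · obtain ⟨Y, hY⟩ := hmax
      exact LUC.lurV_mix_zero p hp (Λ := Λ) (S := S) (K := K) (ϖ := (p : Λ)) k6 hpS hϖ2 hresS
        hSdim ∅ hempty hsep' V hR (fun s => hC s) (fun s hs => hmC _ ((hSmax s).1 hs)) htr Y hY
        hraΛ
    · have hm : 0 < m := by
        rcases Nat.eq_zero_or_pos m with h0 | h0
        · subst h0
          exact absurd (LU2.indVal_one hR.1) hmax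
        · exact h0
      exact LUC.lurV_mix p hp (Λ := Λ) (S := S) (K := K) (ϖ := (p : Λ)) k6 hpS hϖ2 hresS
        hSdim ∅ hempty hsep' V hR (fun s => hC s) (fun s hs => hmC _ ((hSmax s).1 hs)) htr hm a ha
        (fun Y hY => hmax ⟨Y, hY⟩) hraΛ
  exact lurV_of_finite (S := S) V hS

end Pool.Agent.LCD
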