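import Pool.Agent.Lib.LCD.A1

/-! # P1: a perfect subfield of the residue field lifts -/

set_option autoImplicit false

namespace Pool.Agent.LCD

open IsLocalRing

universe u

private theorem teichmuller_add'' {p : ℕ} [Fact p.Prime] {R : Type u} [CommRing R] [CharP R p]
    (I : Ideal R) [CharP (R ⧸ I) p] [IsAdicComplete I R] (x y : Perfection (R ⧸ I) p) :
    Perfection.teichmuller p I (x + y) =
      Perfection.teichmuller p I x + Perfection.teichmuller p I y := by
  refine Perfection.teichmuller_spec fun n => ?_
  refine ⟨(Perfection.coeff _ p n x).out + (Perfection.coeff _ p n y).out, by simp, ?_⟩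
  rw [add_pow_char_pow]
  refine (Perfection.teichmuller_sModEq ?_).symm.add (Perfection.teichmuller_sModEq ?_).symm <;> simp

theorem exists_lift_perfect (p : ℕ) [Fact p.Prime] (C : Type u) [CommRing C] [IsLocalRing C]
    [IsAdicComplete (maximalIdeal C) C] [CharP C p] (k : Type u) [Field k] [PerfectField k]
    (ι : k →+* ResidueField C) :
    ∃ σ : k →+* C, ∀ a, residue C (σ a) = ι a := by
  have hκ : CharP (ResidueField C) p := by
    refine (CharP.charP_iff_prime_eq_zero (Fact.out : p.Prime)).2 ?_
    rw [← map_natCast (residue C) p, CharP.cast_eq_zero, map_zero]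
  have hk : CharP k p := by
    refine (CharP.charP_iff_prime_eq_zero (Fact.out : p.Prime)).2 (ι.injective ?_)
    rw [map_natCast, map_zero, CharP.cast_eq_zero]
  have hQ : CharP (C ⧸ maximalIdeal C) p := hκ
  have he : ExpChar k p := ExpChar.prime Fact.out
  have hpr : PerfectRing k p := PerfectField.toPerfectRing p
  let T : Perfection (C ⧸ maximalIdeal C) p →+* C :=
    { Perfection.teichmuller p (maximalIdeal C) with
      map_zero' := Perfection.teichmuller_zero
      map_add' := teichmuller_add'' (maximalIdeal C) }
  let l : k →+* Perfection (C ⧸ maximalIdeal C) p :=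
    Perfection.lift p k (C ⧸ maximalIdeal C) ι
  refine ⟨T.comp l, fun a => ?_⟩
  have h1 : residue C (T (l a)) = Perfection.coeff (C ⧸ maximalIdeal C) p 0 (l a) :=
    Perfection.mk_teichmuller (l a)
  have h2 := (Perfection.lift p k (C ⧸ maximalIdeal C)).symm_apply_apply ι
  have h3 : Perfection.coeff (C ⧸ maximalIdeal C) p 0 (l a) = ι a :=
    congrArg (fun f => f a) (congrArg DFunLike.coe h2)
  exact h1.trans h3

end Pool.Agent.LCD
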