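import Mathlib

/-! # P2: lifting of the residue field, with prescribed lifts of a separating transcendence basis -/

set_option autoImplicit false

namespace Pool.Agent.LCD

open IsLocalRing Polynomial

universe u

/-- Lifting of a finite separable extension along a henselian surjection. -/
private theorem lift_sep {C κ L : Type u} [CommRing C] [Field κ] [Field L] [Algebra L κ]
    [FiniteDimensional L κ] [Algebra.IsSeparable L κ] (res : C →+* κ)
    (hres : Function.Surjective res)
    (hH : ∀ f : C[X], f.Monic → ∀ a₀ : C, res (f.eval a₀) = 0 → res (f.derivative.eval a₀) ≠ 0 →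
      ∃ a : C, f.IsRoot a ∧ res a = res a₀)
    (j : L →+* C) (hj : ∀ l, res (j l) = algebraMap L κ l) :
    ∃ σ : κ →+* C, (∀ a, res (σ a) = a) ∧ ∀ l, σ (algebraMap L κ l) = j l := by
  classical
  let pb : PowerBasis L κ := Field.powerBasisOfFiniteOfSeparable L κ
  let _ : Algebra L C := j.toAlgebra
  obtain ⟨a₀, ha₀⟩ := hres pb.gen
  have hcomp : res.comp j = algebraMap L κ := RingHom.ext hj
  have hev : ∀ g : L[X], res ((g.map j).eval a₀) = aeval pb.gen g := by
    intro g
    rw [← Polynomial.eval₂_hom, ← Polynomial.eval_map, Polynomial.map_map, ha₀, hcomp,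
      Polynomial.eval_map]
    rfl
  have hmon : (minpoly L pb.gen).Monic := minpoly.monic pb.isIntegral_gen
  have hs : (minpoly L pb.gen).Separable := Algebra.IsSeparable.isSeparable L pb.gen
  obtain ⟨t, ht, hta⟩ := hH ((minpoly L pb.gen).map j) (hmon.map j) a₀
    (by rw [hev, minpoly.aeval])
    (by
      rw [Polynomial.derivative_map, hev]
      exact hs.aeval_derivative_ne_zero (minpoly.aeval L pb.gen))
  have ht' : aeval t (minpoly L pb.gen) = 0 := by
    rw [Polynomial.aeval_def, ← Polynomial.eval_map]
    exact ht
  let σ : κ →ₐ[L] C := pb.lift t ht'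
  let ρ : C →ₐ[L] κ := { res with commutes' := hj }
  have h1 : ρ.comp σ = AlgHom.id L κ := by
    refine pb.algHom_ext ?_
    rw [AlgHom.comp_apply, pb.lift_gen t ht']
    exact hta.trans ha₀
  exact ⟨σ.toRingHom, fun a => congrArg (fun f : κ →ₐ[L] κ => f a) h1, fun l => σ.commutes l⟩

/-- Extension of a homomorphism to the field of fractions. -/
private theorem lift_frac {A L κ C : Type u} [CommRing A] [IsDomain A] [Field L] [Algebra A L]
    [IsFractionRing A L] [Field κ] [CommRing C] (ι : L →+* κ) (res : C →+* κ)
    (hloc : ∀ x, res x ≠ 0 → IsUnit x) (φ : A →+* C)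
    (h : ∀ a, res (φ a) = ι (algebraMap A L a)) :
    ∃ j : L →+* C, (∀ a, j (algebraMap A L a) = φ a) ∧ ∀ l, res (j l) = ι l := by
  have hu : ∀ y : nonZeroDivisors A, IsUnit (φ y) := by
    intro y
    refine hloc _ ?_
    rw [h]
    intro h0
    have h1 : algebraMap A L y = 0 := (map_eq_zero ι).1 h0
    exact nonZeroDivisors.coe_ne_zero y ((map_eq_zero_iff _ (IsFractionRing.injective A L)).1 h1)
  refine ⟨IsLocalization.lift hu, fun a => IsLocalization.lift_eq hu a, fun l => ?_⟩
  have h1 : res.comp (IsLocalization.lift hu) = ι :=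
    IsLocalization.ringHom_ext (nonZeroDivisors A) (RingHom.ext fun a => by
      have h2 : (IsLocalization.lift hu : L →+* C) (algebraMap A L a) = φ a :=
        IsLocalization.lift_eq hu a
      simp only [RingHom.comp_apply, h2, h])
  exact congrArg (fun f : L →+* κ => f l) h1

theorem exists_coeff_ext (C : Type u) [CommRing C] [IsLocalRing C]
    [IsAdicComplete (maximalIdeal C) C] (k : Type u) [Field k] [Algebra k C] {c : ℕ}
    (β : Fin c → C) (hind : AlgebraicIndependent k fun i => residue C (β i))
    (hsep : Algebra.IsSeparable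
      (IntermediateField.adjoin k (Set.range fun i => residue C (β i))) (ResidueField C))
    (hfin : FiniteDimensional
      (IntermediateField.adjoin k (Set.range fun i => residue C (β i))) (ResidueField C)) :
    ∃ σ : ResidueField C →+* C, (∀ a, residue C (σ a) = a) ∧
      (∀ a : k, σ (algebraMap k (ResidueField C) a) = algebraMap k C a) ∧
      ∀ i, σ (residue C (β i)) = β i := by
  classical
  -- the polynomials in `β`
  have hcomp : ∀ P : MvPolynomial (Fin c) k,
      residue C (MvPolynomial.aeval β P) = MvPolynomial.aeval (fun i => residue C (β i)) P := by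
    intro P
    exact (MvPolynomial.map_aeval β (residue C) P).trans (by
      rw [MvPolynomial.aeval_def]
      rfl)
  let φ : Algebra.adjoin k (Set.range fun i => residue C (β i)) →ₐ[k] C :=
    (MvPolynomial.aeval β).comp hind.repr
  have hφ : ∀ a, residue C (φ a) = (a : ResidueField C) := by
    intro a
    exact (hcomp (hind.repr a)).trans (hind.aeval_repr a)
  obtain ⟨j, hj, hjr⟩ : ∃ j : IntermediateField.adjoin k
        (Set.range fun i => residue C (β i)) →+* C,
      (∀ a : Algebra.adjoin k (Set.range fun i => residue C (β i)),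
        j ⟨a, IntermediateField.algebra_adjoin_le_adjoin k _ a.2⟩ = φ a) ∧
      ∀ l, residue C (j l) = algebraMap
        (IntermediateField.adjoin k (Set.range fun i => residue C (β i))) (ResidueField C) l := by
    open IntermediateField.algebraAdjoinAdjoin in
    exact lift_frac (A := Algebra.adjoin k (Set.range fun i => residue C (β i)))
      (algebraMap (IntermediateField.adjoin k
      (Set.range fun i => residue C (β i))) (ResidueField C)) (residue C)
      (fun x hx => (residue_ne_zero_iff_isUnit x).1 hx) (φ : _ →+* C) hφ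
  have hH : HenselianRing C (maximalIdeal C) := inferInstance
  obtain ⟨σ, h1, h2⟩ := lift_sep (residue C) residue_surjective (fun f hf a₀ h0 h1 => by
    obtain ⟨a, ha, ha'⟩ := hH.is_henselian f hf a₀ ((residue_eq_zero_iff _).1 h0)
      ((residue_ne_zero_iff_isUnit _).1 h1 |>.map _)
    refine ⟨a, ha, ?_⟩
    have h2 := (residue_eq_zero_iff _).2 ha'
    rw [map_sub] at h2
    exact sub_eq_zero.1 h2) j hjr
  refine ⟨σ, h1, fun a => ?_, fun i => ?_⟩
  · have h3 := h2 (algebraMap k _ a)
    have h4 := hj (algebraMap k _ a)
    rw [AlgHom.commutes] at h4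
    exact h3.trans h4
  · have hmem : residue C (β i) ∈ Algebra.adjoin k (Set.range fun i => residue C (β i)) :=
      Algebra.subset_adjoin ⟨i, rfl⟩
    have h3 := h2 ⟨residue C (β i), IntermediateField.algebra_adjoin_le_adjoin k _ hmem⟩
    have h4 := hj ⟨residue C (β i), hmem⟩
    refine h3.trans (h4.trans ?_)
    have h5 : hind.repr ⟨residue C (β i), hmem⟩ = MvPolynomial.X i := by
      refine hind.aevalEquiv.injective ?_
      refine (hind.aevalEquiv.apply_symm_apply _).trans (Subtype.ext ?_)
      exact (MvPolynomial.aeval_X (fun i => residue C (β i)) i).symm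
    show MvPolynomial.aeval β (hind.repr _) = β i
    rw [h5, MvPolynomial.aeval_X]

end Pool.Agent.LCD
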