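import Mathlib

/-! # P3: fields which are finitely generated over a perfect field: a separating transcendence basis is a p-basis -/

set_option autoImplicit false

namespace Pool.Agent.LCD

universe u

theorem exists_sep_basis (k κ : Type u) [Field k] [Field κ] [Algebra k κ] [PerfectField k]
    [Algebra.EssFiniteType k κ] :
    ∃ (c : ℕ) (β : Fin c → κ), AlgebraicIndependent k β ∧
      Algebra.IsSeparable (IntermediateField.adjoin k (Set.range β)) κ ∧
      FiniteDimensional (IntermediateField.adjoin k (Set.range β)) κ := by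
  obtain ⟨s, hs, hsep⟩ := exists_isTranscendenceBasis_and_isSeparable_of_perfectField k κ
  let e : Fin s.card ≃ s := s.equivFin.symm
  have hr : Set.range (fun i => (e i : κ)) = (s : Set κ) := by
    have h := e.surjective.range_comp (fun x : s => (x : κ))
    have h2 : Set.range (fun x : s => (x : κ)) = (s : Set κ) := by simp
    rw [← h2, ← h]
    rfl
  refine ⟨s.card, fun i => (e i : κ), hs.1.comp _ e.injective, ?_, ?_⟩
  · rw [hr]; exact hsep
  · rw [hr]
    set K := IntermediateField.adjoin k (s : Set κ) with hK
    have : Algebra.EssFiniteType K κ := Algebra.EssFiniteType.of_comp k K κ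
    obtain ⟨t, ht⟩ := IntermediateField.fg_top K κ
    have : FiniteDimensional K (IntermediateField.adjoin K (t : Set κ)) :=
      IntermediateField.finiteDimensional_adjoin
        (fun x _ => (Algebra.IsSeparable.isIntegral K x))
    rw [ht] at this
    exact Module.Finite.equiv (IntermediateField.topEquiv (F := K) (E := κ)).toLinearEquiv

theorem pow_basis (p : ℕ) [Fact p.Prime] (k κ : Type u) [Field k] [Field κ] [Algebra k κ]
    [PerfectField k] [CharP κ p] {c : ℕ} (β : Fin c → κ)
    (hsep : Algebra.IsSeparable (IntermediateField.adjoin k (Set.range β)) κ) (a : κ) :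
    ∃ g : (Fin c → Fin p) → κ, a = ∑ α, g α ^ p * ∏ i, β i ^ (α i : ℕ) := by
  classical
  have hp : p.Prime := Fact.out
  have hk : CharP k p := by
    refine (CharP.charP_iff_prime_eq_zero hp).2 ((algebraMap k κ).injective ?_)
    rw [map_natCast, map_zero, CharP.cast_eq_zero]
  have : ExpChar k p := ExpChar.prime hp
  have hκe : ExpChar κ p := ExpChar.prime hp
  have hpr : PerfectRing k p := PerfectField.toPerfectRing p
  let F : Subfield κ := (frobenius κ p).fieldRange
  have hF : ∀ x : κ, x ^ p ∈ F := fun x => ⟨x, rfl⟩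
  let m : (Fin c → Fin p) → κ := fun α => ∏ i, β i ^ (α i : ℕ)
  let M : Submodule F κ := Submodule.span F (Set.range m)
  have hm : ∀ (α : Fin c → Fin p) (i : Fin c) (v : Fin p),
      m (Function.update α i v) = β i ^ (v : ℕ) * ∏ j ∈ Finset.univ.erase i, β j ^ (α j : ℕ) := by
    intro α i v
    show ∏ j, β j ^ ((Function.update α i v) j : ℕ) = _
    rw [← Finset.mul_prod_erase Finset.univ _ (Finset.mem_univ i)]
    congr 1
    · rw [Function.update_self]
    · refine Finset.prod_congr rfl fun j hj => ?_
      rw [Function.update_of_ne (Finset.ne_of_mem_erase hj)]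
  have hm0 : ∀ (α : Fin c → Fin p) (i : Fin c),
      m α = β i ^ (α i : ℕ) * ∏ j ∈ Finset.univ.erase i, β j ^ (α j : ℕ) := by
    intro α i
    have h := hm α i (α i)
    rwa [Function.update_eq_self] at h
  have h1 : (1 : κ) ∈ M := by
    refine Submodule.subset_span ⟨fun _ => ⟨0, hp.pos⟩, ?_⟩
    show ∏ i, β i ^ (0 : ℕ) = 1
    simp
  have hβ : ∀ i, ∀ x ∈ M, β i * x ∈ M := by
    intro i x hx
    induction hx using Submodule.span_induction with
    | mem x hx =>
      obtain ⟨α, rfl⟩ := hx
      by_cases h : (α i : ℕ) + 1 < p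
      · refine Submodule.subset_span ⟨Function.update α i ⟨(α i : ℕ) + 1, h⟩, ?_⟩
        rw [hm, hm0 α i, pow_succ]
        ring
      · have h' : (α i : ℕ) + 1 = p := by
          have := (α i).isLt
          omega
        have hpp : β i ^ p = β i ^ (α i : ℕ) * β i := by
          rw [← pow_succ]
          exact congrArg (fun e : ℕ => β i ^ e) h'.symm
        have h2 : β i * m α = (⟨β i ^ p, hF _⟩ : F) • m (Function.update α i ⟨0, hp.pos⟩) := by
          rw [hm, hm0 α i, Subfield.smul_def, smul_eq_mul]
          show _ = β i ^ p * (β i ^ 0 * _)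
          rw [hpp]
          ring
        rw [h2]
        exact M.smul_mem _ (Submodule.subset_span ⟨_, rfl⟩)
    | zero => rw [mul_zero]; exact M.zero_mem
    | add x y _ _ hx hy => rw [mul_add]; exact M.add_mem hx hy
    | smul r x _ hx => rw [mul_smul_comm]; exact M.smul_mem _ hx
  let S : Subalgebra F κ :=
    { carrier := {y | ∀ x ∈ M, y * x ∈ M}
      mul_mem' := fun {y z} hy hz x hx => by rw [mul_assoc]; exact hy _ (hz _ hx)
      add_mem' := fun {y z} hy hz x hx => by rw [add_mul]; exact M.add_mem (hy _ hx) (hz _ hx)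
      algebraMap_mem' := fun r x hx => by
        rw [← Algebra.smul_def]; exact M.smul_mem _ hx }
  have hS : Algebra.adjoin F (Set.range β) ≤ S := by
    refine Algebra.adjoin_le ?_
    rintro _ ⟨i, rfl⟩
    exact hβ i
  let E : IntermediateField F κ := IntermediateField.adjoin F (Set.range β)
  have hEalg : E.toSubalgebra = Algebra.adjoin F (Set.range β) := by
    refine IntermediateField.adjoin_toSubalgebra_of_isAlgebraic ?_
    rintro _ ⟨i, rfl⟩
    refine ⟨Polynomial.X ^ p - Polynomial.C (⟨β i ^ p, hF _⟩ : F),
      (Polynomial.monic_X_pow_sub_C _ hp.ne_zero).ne_zero, ?_⟩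
    rw [map_sub, map_pow, Polynomial.aeval_X, Polynomial.aeval_C]
    exact sub_self _
  have hk1 : (IntermediateField.adjoin k (Set.range β)).toSubfield ≤ E.toSubfield := by
    rw [IntermediateField.adjoin_toSubfield]
    refine Subfield.closure_le.2 (Set.union_subset ?_ ?_)
    · rintro _ ⟨t, rfl⟩
      obtain ⟨u, hu⟩ := surjective_frobenius k p t
      have h3 : algebraMap k κ t = algebraMap F κ ⟨(algebraMap k κ u) ^ p, hF _⟩ := by
        show _ = (algebraMap k κ u) ^ p
        rw [← map_pow, ← hu]
        rfl
      rw [h3]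
      exact E.algebraMap_mem _
    · exact IntermediateField.subset_adjoin F (Set.range β)
  let K1 := IntermediateField.adjoin k (Set.range β)
  let : Algebra K1 E := (Subfield.inclusion hk1).toAlgebra
  have : IsScalarTower K1 E κ := IsScalarTower.of_algebraMap_eq fun x => rfl
  have : Algebra.IsSeparable E κ := Algebra.isSeparable_tower_top_of_isSeparable K1 E κ
  have : ExpChar E p := by
    have : CharP E p := by
      refine (CharP.charP_iff_prime_eq_zero hp).2 ((algebraMap E κ).injective ?_)
      rw [map_natCast, map_zero, CharP.cast_eq_zero]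
    exact ExpChar.prime hp
  have : IsPurelyInseparable E κ := by
    refine (isPurelyInseparable_iff_pow_mem E p).2 fun x => ⟨1, ?_⟩
    rw [pow_one]
    exact ⟨⟨x ^ p, E.algebraMap_mem ⟨x ^ p, hF x⟩⟩, rfl⟩
  obtain ⟨a', ha'⟩ := IsPurelyInseparable.surjective_algebraMap_of_isSeparable E κ a
  have haE : a ∈ E := by rw [← ha']; exact a'.2
  have haS : a ∈ S := by
    apply hS
    rw [← hEalg]
    exact haE
  have haM : a ∈ M := by
    have h := haS 1 h1
    rwa [mul_one] at h
  obtain ⟨g, hg⟩ := (Submodule.mem_span_range_iff_exists_fun F).1 haM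
  refine ⟨fun α => (g α).2.choose, ?_⟩
  rw [← hg]
  refine Finset.sum_congr rfl fun α _ => ?_
  rw [Subfield.smul_def, smul_eq_mul]
  congr 1
  exact (g α).2.choose_spec.symm

end Pool.Agent.LCD
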