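import Pool.Agent.Lib.LCD.G2

/-! # P4: power series over a field with a finite p-basis -/

set_option autoImplicit false

namespace Pool.Agent.LCD

universe u

theorem powerSeries_pow' (p : ℕ) [Fact p.Prime] (κ : Type u) [Field κ] [CharP κ p] {c s : ℕ}
    (β : Fin c → κ)
    (hβ : ∀ a : κ, ∃ g : (Fin c → Fin p) → κ, a = ∑ α, g α ^ p * ∏ i, β i ^ (α i : ℕ))
    (f : MvPowerSeries (Fin s) κ) :
    ∃ g : (Fin (c + s) → Fin p) → MvPowerSeries (Fin s) κ,
      f = ∑ α, g α ^ p * ∏ i, (Fin.append (fun i => MvPowerSeries.C (σ := Fin s) (β i))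
        (fun i => (MvPowerSeries.X i : MvPowerSeries (Fin s) κ)) i) ^ (α i : ℕ) := by
  classical
  have hp : p ≠ 0 := (Fact.out : p.Prime).ne_zero
  choose H hH using hβ
  set E : (Fin s → Fin p) → (Fin s →₀ ℕ) :=
    fun α => Finsupp.equivFunOnFinite.symm fun i => (α i : ℕ) with hE
  have hEi : ∀ α i, E α i = (α i : ℕ) := fun α i => rfl
  set G : (Fin c → Fin p) × (Fin s → Fin p) → MvPowerSeries (Fin s) κ := fun α => fun γ =>
    H (MvPowerSeries.coeff (E α.2 + p • γ) f) α.1 with hG
  have hGc : ∀ α γ, MvPowerSeries.coeff γ (G α) =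
      H (MvPowerSeries.coeff (E α.2 + p • γ) f) α.1 := fun α γ => rfl
  have hg1 : ∀ α γ, MvPowerSeries.coeff (p • γ) (G α ^ p) =
      H (MvPowerSeries.coeff (E α.2 + p • γ) f) α.1 ^ p := by
    intro α γ
    rw [← MvPowerSeries.map_frobenius_expand p hp, MvPowerSeries.coeff_map,
      MvPowerSeries.coeff_expand_smul, hGc]
    rfl
  have hg0 : ∀ α γ i, ¬ p ∣ γ i → MvPowerSeries.coeff γ (G α ^ p) = 0 := by
    intro α γ i h
    rw [← MvPowerSeries.map_frobenius_expand p hp, MvPowerSeries.coeff_map,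
      MvPowerSeries.coeff_expand_of_not_dvd p hp _ h, map_zero]
  have hX : ∀ α : Fin s → Fin p, ∏ i, (MvPowerSeries.X i : MvPowerSeries (Fin s) κ) ^ (α i : ℕ) =
      MvPowerSeries.monomial (E α) 1 := by
    intro α
    rw [MvPowerSeries.monomial_eq', Finsupp.prod_fintype _ _ (fun i => pow_zero _)]
    simp [hEi]
  have hB : ∀ α : Fin c → Fin p, ∏ i, (MvPowerSeries.C (σ := Fin s) (β i)) ^ (α i : ℕ) =
      MvPowerSeries.C (σ := Fin s) (∏ i, β i ^ (α i : ℕ)) := by
    intro α
    rw [map_prod]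
    exact Finset.prod_congr rfl fun i _ => (map_pow _ _ _).symm
  refine ⟨fun α => G ((Fin.appendEquiv c s).symm α), ?_⟩
  rw [← Equiv.sum_comp (Fin.appendEquiv c s)]
  have hterm : ∀ α : (Fin c → Fin p) × (Fin s → Fin p),
      G ((Fin.appendEquiv c s).symm (Fin.appendEquiv c s α)) ^ p *
        ∏ i, (Fin.append (fun i => MvPowerSeries.C (σ := Fin s) (β i))
        (fun i => (MvPowerSeries.X i : MvPowerSeries (Fin s) κ)) i) ^
          ((Fin.appendEquiv c s α) i : ℕ) =
      G α ^ p * (MvPowerSeries.C (σ := Fin s) (∏ i, β i ^ (α.1 i : ℕ)) *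
        MvPowerSeries.monomial (E α.2) 1) := by
    intro α
    rw [Equiv.symm_apply_apply, Fin.prod_univ_add, ← hB, ← hX]
    congr 2
    · refine Finset.prod_congr rfl fun i _ => ?_
      rw [Fin.append_left]
      congr 2
      exact Fin.append_left _ _ _
    · refine Finset.prod_congr rfl fun i _ => ?_
      rw [Fin.append_right]
      congr 2
      exact Fin.append_right _ _ _
  rw [Finset.sum_congr rfl fun α _ => hterm α, Fintype.sum_prod_type]
  ext γ
  set α₀ : Fin s → Fin p := fun i => ⟨γ i % p, Nat.mod_lt _ (Nat.pos_of_ne_zero hp)⟩ with hα₀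
  set β₀ : Fin s →₀ ℕ := γ.mapRange (fun n => n / p) (Nat.zero_div p) with hβ₀
  have hγ : γ = E α₀ + p • β₀ := by
    ext i
    rw [Finsupp.add_apply, hEi, Finsupp.smul_apply, hβ₀, Finsupp.mapRange_apply, smul_eq_mul]
    exact (Nat.mod_add_div (γ i) p).symm
  rw [map_sum]
  have hinner : ∀ α' : Fin c → Fin p,
      MvPowerSeries.coeff γ (∑ α'', G (α', α'') ^ p *
        (MvPowerSeries.C (σ := Fin s) (∏ i, β i ^ ((α', α'').1 i : ℕ)) *
          MvPowerSeries.monomial (E (α', α'').2) 1)) =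
      H (MvPowerSeries.coeff γ f) α' ^ p * ∏ i, β i ^ (α' i : ℕ) := by
    intro α'
    rw [map_sum, Finset.sum_eq_single α₀]
    · rw [← mul_assoc, mul_comm (G (α', α₀) ^ p), mul_assoc, MvPowerSeries.coeff_C_mul,
        MvPowerSeries.coeff_mul_monomial, if_pos (by
          change E α₀ ≤ γ
          rw [hγ]; exact le_self_add), mul_one]
      have h1 : γ - E α₀ = p • β₀ := by
        conv_lhs => rw [hγ]
        exact add_tsub_cancel_left _ _
      change _ * MvPowerSeries.coeff (γ - E α₀) _ = _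
      rw [h1, hg1, mul_comm]
      change H (MvPowerSeries.coeff (E α₀ + p • β₀) f) α' ^ p * _ = _
      rw [← hγ]
    · intro α'' _ hne
      rw [← mul_assoc, mul_comm (G (α', α'') ^ p), mul_assoc, MvPowerSeries.coeff_C_mul,
        MvPowerSeries.coeff_mul_monomial]
      split_ifs with h
      · obtain ⟨i, hi⟩ : ∃ i, α'' i ≠ α₀ i := by
          by_contra hcon
          push Not at hcon
          exact hne (funext hcon)
        rw [hg0 _ _ i, zero_mul, mul_zero]
        intro hd
        apply hi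
        apply Fin.ext
        have h1 : (α'' i : ℕ) ≤ γ i := h i
        change p ∣ (γ - E α'') i at hd
        rw [Finsupp.tsub_apply, hEi] at hd
        obtain ⟨c', hc⟩ := hd
        have h2 : γ i = α'' i + p * c' := by omega
        change (α'' i : ℕ) = γ i % p
        rw [h2, Nat.add_mul_mod_self_left, Nat.mod_eq_of_lt (α'' i).2]
      · rw [mul_zero]
    · intro h
      exact absurd (Finset.mem_univ _) h
  rw [Finset.sum_congr rfl fun α' _ => hinner α']
  exact hH _

end Pool.Agent.LCD
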