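import Pool.Agent.Lib.LCD.G3

/-! # P5: generators over the p-th powers: the first `c` of them are prescribed modulo `M`

Recipe. As `exists_gens` in `LCD/G3.lean` (copy its private lemmas `adjoin_eq_top_iff`, `finrank_step` if they are private; a step with a new element `m ∉ E` multiplies the degree by `p`). Induction on `j ≤ c` : `l : Fin j → K` in `M` with
`K^p(b_i + l_i : i < j)` equal to `⊤` or of degree `≥ p^j`. Step: if `E ≠ ⊤`: if `b_j ∉ E` take `l_j = 0 ∈ M`; if `b_j ∈ E` there is `m ∈ M` not in `E` (as `K^p(M) = ⊤`), take `l_j = m`, `b_j + m ∉ E`. Then induction for the `u_i ∈ M` as in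
`exists_gens`. At the end degree `≥ p^(c+s)` and `≤ p^(c+s)`, so `⊤`. -/

set_option autoImplicit false

namespace Pool.Agent.LCD

universe u

private theorem adjoin_eq_top_iff5 (p : ℕ) [Fact p.Prime] {K : Type u} [Field K] [CharP K p]
    (M : Set K) : IntermediateField.adjoin (frobenius K p).fieldRange M = ⊤ ↔
      Subfield.closure (Set.range (frobenius K p) ∪ M) = ⊤ := by
  have h1 : (IntermediateField.adjoin (frobenius K p).fieldRange M).toSubfield =
      Subfield.closure (Set.range (frobenius K p) ∪ M) := by
    rw [IntermediateField.adjoin_toSubfield]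
    congr 2
    ext x
    constructor
    · rintro ⟨⟨y, z, hz⟩, rfl⟩
      exact ⟨z, hz⟩
    · rintro ⟨z, rfl⟩
      exact ⟨⟨frobenius K p z, z, rfl⟩, rfl⟩
  have h2 : (⊤ : IntermediateField (frobenius K p).fieldRange K).toSubfield = ⊤ := rfl
  rw [← h1, ← h2]
  exact IntermediateField.toSubfield_injective.eq_iff.symm

private theorem finrank_step5 (p : ℕ) [Fact p.Prime] {K : Type u} [Field K] [CharP K p]
    [FiniteDimensional (frobenius K p).fieldRange K]
    (E : IntermediateField (frobenius K p).fieldRange K) (m : K) (hm : m ∉ E) :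
    Module.finrank (frobenius K p).fieldRange (IntermediateField.adjoin E {m}) =
      Module.finrank (frobenius K p).fieldRange E * p := by
  have hp : p.Prime := Fact.out
  have hmp : m ^ p ∈ E := by
    have h1 : algebraMap (frobenius K p).fieldRange K ⟨m ^ p, m, rfl⟩ ∈ E := E.algebraMap_mem _
    exact h1
  have hirr : Irreducible (Polynomial.X ^ p - Polynomial.C (⟨m ^ p, hmp⟩ : E)) := by
    refine X_pow_sub_C_irreducible_of_prime hp fun b hb => hm ?_
    have h1 : (b : K) ^ p = m ^ p := congrArg (fun x : E => (x : K)) hb
    have h2 : (b : K) = m := frobenius_inj K p h1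
    rw [← h2]
    exact b.2
  have hmon : (Polynomial.X ^ p - Polynomial.C (⟨m ^ p, hmp⟩ : E)).Monic :=
    Polynomial.monic_X_pow_sub_C _ hp.ne_zero
  have haev : Polynomial.aeval m (Polynomial.X ^ p - Polynomial.C (⟨m ^ p, hmp⟩ : E)) = 0 := by
    rw [map_sub, map_pow, Polynomial.aeval_X, Polynomial.aeval_C]
    exact sub_self _
  have hmin := minpoly.eq_of_irreducible_of_monic hirr haev hmon
  have hint : IsIntegral E m := IsIntegral.of_finite E m
  have hdeg : Module.finrank E (IntermediateField.adjoin E {m}) = p := by
    rw [IntermediateField.adjoin.finrank hint, ← hmin, Polynomial.natDegree_X_pow_sub_C]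
  rw [← Module.finrank_mul_finrank (frobenius K p).fieldRange E
    (IntermediateField.adjoin E {m}), hdeg]

private theorem range_snoc_add {K : Type u} [Field K] {c : ℕ} (b : Fin (c + 1) → K)
    (l : Fin c → K) (m : K) :
    Set.range (fun i : Fin (c + 1) => b i + (Fin.snoc l m : Fin (c + 1) → K) i) =
      Set.range (fun i : Fin c => b i.castSucc + l i) ∪ {b (Fin.last c) + m} := by
  ext x
  constructor
  · rintro ⟨i, rfl⟩
    refine Fin.lastCases ?_ (fun i => ?_) i
    · refine Or.inr ?_
      simp only [Fin.snoc_last, Set.mem_singleton_iff]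
    · refine Or.inl ⟨i, ?_⟩
      simp only [Fin.snoc_castSucc]
  · rintro (⟨i, rfl⟩ | h)
    · refine ⟨i.castSucc, ?_⟩
      simp only [Fin.snoc_castSucc]
    · rw [Set.mem_singleton_iff] at h
      subst h
      refine ⟨Fin.last c, ?_⟩
      simp only [Fin.snoc_last]

private theorem gens_aux (p : ℕ) [Fact p.Prime] {K : Type u} [Field K] [CharP K p]
    [FiniteDimensional (frobenius K p).fieldRange K] (M : Set K) (hM0 : (0 : K) ∈ M)
    (hM : Subfield.closure (Set.range (frobenius K p) ∪ M) = ⊤) (c : ℕ) :
    ∀ b : Fin c → K, ∃ l : Fin c → K, (∀ i, l i ∈ M) ∧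
      (IntermediateField.adjoin (frobenius K p).fieldRange
          (Set.range (fun i => b i + l i)) = ⊤ ∨
        p ^ c ≤ Module.finrank (frobenius K p).fieldRange
          (IntermediateField.adjoin (frobenius K p).fieldRange
            (Set.range (fun i => b i + l i)))) := by
  induction c with
  | zero =>
    intro b
    refine ⟨Fin.elim0, fun i => i.elim0, Or.inr ?_⟩
    rw [pow_zero]
    exact Module.finrank_pos
  | succ c ih =>
    intro b
    obtain ⟨l, hlM, hl⟩ := ih (fun i => b i.castSucc)
    have hmem : ∀ m ∈ M, ∀ i, (Fin.snoc l m : Fin (c + 1) → K) i ∈ M := by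
      intro m hm i
      refine Fin.lastCases ?_ (fun i => ?_) i
      · rw [Fin.snoc_last]
        exact hm
      · rw [Fin.snoc_castSucc]
        exact hlM i
    by_cases htop : IntermediateField.adjoin (frobenius K p).fieldRange
        (Set.range (fun i => b i.castSucc + l i)) = ⊤
    · refine ⟨Fin.snoc l 0, hmem 0 hM0, Or.inl ?_⟩
      rw [eq_top_iff, ← htop, range_snoc_add]
      exact IntermediateField.adjoin.mono _ _ _ Set.subset_union_left
    · have hl' := hl.resolve_left htop
      obtain ⟨m, hmM, hm⟩ : ∃ m ∈ M, b (Fin.last c) + m ∉ IntermediateField.adjoin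
          (frobenius K p).fieldRange (Set.range (fun i => b i.castSucc + l i)) := by
        by_cases hb : b (Fin.last c) ∈ IntermediateField.adjoin
            (frobenius K p).fieldRange (Set.range (fun i => b i.castSucc + l i))
        · obtain ⟨m, hmM, hm⟩ : ∃ m ∈ M, m ∉ IntermediateField.adjoin
              (frobenius K p).fieldRange (Set.range (fun i => b i.castSucc + l i)) := by
            by_contra hcon
            push Not at hcon
            refine htop ?_
            rw [eq_top_iff, ← (adjoin_eq_top_iff5 p M).2 hM]
            exact IntermediateField.adjoin_le_iff.2 hcon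
          refine ⟨m, hmM, fun h => hm ?_⟩
          have h2 := sub_mem h hb
          rwa [add_sub_cancel_left] at h2
        · refine ⟨0, hM0, ?_⟩
          rwa [add_zero]
      refine ⟨Fin.snoc l m, hmem m hmM, Or.inr ?_⟩
      have h1 := finrank_step5 p _ _ hm
      rw [range_snoc_add, ← IntermediateField.adjoin_adjoin_left]
      have h2 : Module.finrank (frobenius K p).fieldRange
          ((IntermediateField.adjoin (IntermediateField.adjoin
            (frobenius K p).fieldRange (Set.range (fun i => b i.castSucc + l i)))
              {b (Fin.last c) + m}).restrictScalars (frobenius K p).fieldRange) =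
          Module.finrank (frobenius K p).fieldRange
            (IntermediateField.adjoin (frobenius K p).fieldRange
              (Set.range (fun i => b i.castSucc + l i))) * p := h1
      rw [h2, pow_succ]
      exact Nat.mul_le_mul_right p hl'

theorem exists_gens2 (p : ℕ) [Fact p.Prime] {K : Type u} [Field K] [CharP K p] {c s : ℕ}
    (hfin : FiniteDimensional (frobenius K p).fieldRange K)
    (hq : Module.finrank (frobenius K p).fieldRange K ≤ p ^ (c + s)) (M : Set K)
    (hM0 : (0 : K) ∈ M) (hM : Subfield.closure (Set.range (frobenius K p) ∪ M) = ⊤)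
    (b : Fin c → K) :
    ∃ (l : Fin c → K) (u : Fin s → K), (∀ i, l i ∈ M) ∧ (∀ i, u i ∈ M) ∧
      Subfield.closure (Set.range (frobenius K p) ∪
        (Set.range (fun i => b i + l i) ∪ Set.range u)) = ⊤ := by
  obtain ⟨l, hlM, hl⟩ := gens_aux p M hM0 hM (c + s) (Fin.append b (fun _ => 0))
  refine ⟨fun i => l (Fin.castAdd s i), fun i => l (Fin.natAdd c i), fun i => hlM _,
    fun i => hlM _, ?_⟩
  have hrange : Set.range (fun i : Fin c => b i + l (Fin.castAdd s i)) ∪
      Set.range (fun i : Fin s => l (Fin.natAdd c i)) =
      Set.range (fun i : Fin (c + s) => (Fin.append b (fun _ => 0) : Fin (c + s) → K) i + l i) := by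
    ext x
    constructor
    · rintro (⟨i, rfl⟩ | ⟨i, rfl⟩)
      · refine ⟨Fin.castAdd s i, ?_⟩
        simp only [Fin.append_left]
      · refine ⟨Fin.natAdd c i, ?_⟩
        simp only [Fin.append_right, zero_add]
    · rintro ⟨i, rfl⟩
      refine Fin.addCases (fun i => ?_) (fun i => ?_) i
      · refine Or.inl ⟨i, ?_⟩
        simp only [Fin.append_left]
      · refine Or.inr ⟨i, ?_⟩
        simp only [Fin.append_right, zero_add]
  rw [hrange]
  refine (adjoin_eq_top_iff5 p _).1 ?_
  rcases hl with hl | hl
  · exact hl
  · refine IntermediateField.eq_of_le_of_finrank_le le_top ?_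
    rw [IntermediateField.finrank_top']
    exact hq.trans hl

end Pool.Agent.LCD
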