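import Pool.Agent.Lib.LCD.EQ1
import Pool.Agent.Lib.LCD.P1
import Pool.Agent.Lib.LCD.P2
import Pool.Agent.Lib.LCD.P3
import Pool.Agent.Lib.LCD.P4
import Pool.Agent.Lib.LCD.P5

/-! # P6: Cohen-Gabber for residue fields which are finitely generated over a perfect field -/

set_option autoImplicit false

namespace Pool.Agent.LCD

open IsLocalRing

universe u

/-- The degree of `K` over `K ^ p`. -/
theorem finrank_frob_complete (p : ℕ) [Fact p.Prime] (κ C : Type u) [Field κ] [CharP κ p]
    [CommRing C] [IsDomain C] [CharP C p] [IsLocalRing C] [IsNoetherianRing C]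
    [IsAdicComplete (maximalIdeal C) C] [Algebra κ C]
    (hres : ∀ c : C, ∃ a : κ, c - algebraMap κ C a ∈ maximalIdeal C) {d : ℕ}
    (hd : ringKrullDim C = d) {c : ℕ} (β : Fin c → κ)
    (hβ : ∀ a : κ, ∃ g : (Fin c → Fin p) → κ, a = ∑ α, g α ^ p * ∏ i, β i ^ (α i : ℕ))
    (K : Type u) [Field K] [CharP K p] [Algebra C K] [IsFractionRing C K] :
    FiniteDimensional (frobenius K p).fieldRange K ∧
      Module.finrank (frobenius K p).fieldRange K ≤ p ^ (c + d) := by
  classical
  obtain ⟨y, N, hy, hN⟩ := exists_sop C hd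
  obtain ⟨φ, hφ, hfin, -, hy0⟩ := exists_subalgebra_eq κ C hres hd y hy hN
  have j1 : FaithfulSMul φ.range C := by
    rw [faithfulSMul_iff_algebraMap_injective]
    exact Subtype.val_injective
  have j2 : FaithfulSMul φ.range K := by
    rw [faithfulSMul_iff_algebraMap_injective, IsScalarTower.algebraMap_eq φ.range C K]
    exact (IsFractionRing.injective C K).comp Subtype.val_injective
  let L := FractionRing φ.range
  let j3 : Algebra L K := FractionRing.liftAlgebra φ.range K
  have j4 : IsScalarTower φ.range L K := FractionRing.isScalarTower_liftAlgebra φ.range K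
  have j5 : FiniteDimensional L K := finiteDimensional_frac φ.range C K
  have j6 : CharP φ.range p :=
    (RingHom.charP_iff (algebraMap φ.range C) Subtype.val_injective p).2 inferInstance
  have j7 : CharP L p :=
    (RingHom.charP_iff (algebraMap L K) (algebraMap L K).injective p).2 inferInstance
  let Y : Fin (c + d) → φ.range := Fin.append
    (fun i => ⟨algebraMap κ C (β i), φ.range.algebraMap_mem (β i)⟩)
    (fun i => ⟨y i, ⟨_, hφ i⟩⟩)
  have hS : ∀ f : φ.range, ∃ g : (Fin (c + d) → Fin p) → φ.range, f = ∑ α, g α ^ p *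
      ∏ i, Y i ^ (α i : ℕ) := by
    rintro ⟨_, F, rfl⟩
    obtain ⟨g, hg⟩ := powerSeries_pow' p κ β hβ F
    refine ⟨fun α => φ.rangeRestrict (g α), ?_⟩
    apply Subtype.ext
    rw [AddSubmonoidClass.coe_finsetSum]
    change φ F = _
    rw [hg, map_sum]
    refine Finset.sum_congr rfl fun α _ => ?_
    rw [map_mul, map_pow, map_prod, MulMemClass.coe_mul, SubmonoidClass.coe_pow,
      SubmonoidClass.coe_finsetProd]
    congr 1
    refine Finset.prod_congr rfl fun i _ => ?_
    rw [map_pow, SubmonoidClass.coe_pow]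
    congr 1
    refine Fin.addCases (fun i => ?_) (fun i => ?_) i
    · simp only [Y, Fin.append_left]
      exact φ.commutes (β i)
    · simp only [Y, Fin.append_right]
      exact hφ i
  obtain ⟨h1, h2⟩ := finrank_frobenius_frac p φ.range L Y hS
  exact finrank_frobenius p h1 h2

/-- The regular base ring, with separable field of fractions. -/
theorem exists_base_of_gens (p : ℕ) [Fact p.Prime] (κ C : Type u) [Field κ]
    [CommRing C] [IsDomain C] [CharP C p] [IsLocalRing C] [IsNoetherianRing C]
    [IsAdicComplete (maximalIdeal C) C] [Algebra κ C]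
    (hres : ∀ c : C, ∃ a : κ, c - algebraMap κ C a ∈ maximalIdeal C) {d : ℕ}
    (hd : ringKrullDim C = d) (K : Type u) [Field K] [CharP K p] [Algebra C K]
    [IsFractionRing C K] {c : ℕ} (b : Fin c → κ) (u' : Fin d → C)
    (hu' : ∀ i, u' i ∈ maximalIdeal C)
    (htop : Subfield.closure (Set.range (frobenius K p) ∪
      (Set.range (fun i => algebraMap C K (algebraMap κ C (b i))) ∪
        Set.range fun i => algebraMap C K (u' i))) = ⊤) :
    ∃ S : Subalgebra κ C, Module.Finite S C ∧ (∃ _ : IsRegularLocalRing S,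
        ringKrullDim S = d ∧ (∀ s : S, s ∈ maximalIdeal S ↔ (s : C) ∈ maximalIdeal C)) ∧
      ∀ (_ : Algebra (FractionRing S) K), IsScalarTower S (FractionRing S) K →
        Algebra.IsSeparable (FractionRing S) K := by
  classical
  obtain ⟨y, N, hy, hN⟩ := exists_sop C hd
  obtain ⟨-, -, -, -, hy0⟩ := exists_subalgebra_eq κ C hres hd y hy hN
  let x : Fin d → C := fun i => y i ^ p * (1 + u' i)
  have hp0 : p ≠ 0 := (Fact.out : p.Prime).ne_zero
  have hxm : ∀ i, x i ∈ maximalIdeal C := fun i =>
    Ideal.mul_mem_right _ _ (Ideal.pow_mem_of_mem _ (hy i) p (Nat.pos_of_ne_zero hp0))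
  have hunit : ∀ i, IsUnit (1 + u' i) := by
    intro i
    by_contra h
    have h1 : (1 : C) ∈ maximalIdeal C := by
      have h2 := sub_mem ((IsLocalRing.mem_maximalIdeal _).2 h) (hu' i)
      rwa [add_sub_cancel_right] at h2
    exact (Ideal.ne_top_iff_one _).1 (IsLocalRing.maximalIdeal.isMaximal C).ne_top h1
  obtain ⟨N', hN'⟩ := exists_pow_le_of_radical C y x hN (by
    intro i
    refine ⟨p, ?_⟩
    obtain ⟨v, hv⟩ := (hunit i).exists_right_inv
    have h1 : y i ^ p = x i * v := by
      change _ = y i ^ p * (1 + u' i) * v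
      rw [mul_assoc, hv, mul_one]
    rw [h1]
    exact Ideal.mul_mem_right _ _ (Ideal.subset_span ⟨i, rfl⟩))
  obtain ⟨ψ, hψ, hfin', ⟨hreg, hdim, hmax⟩, -⟩ := exists_subalgebra_eq κ C hres hd x hxm hN'
  refine ⟨ψ.range, hfin', ⟨hreg, hdim, hmax⟩, ?_⟩
  intro j3 j4
  have j1 : FaithfulSMul ψ.range C := by
    rw [faithfulSMul_iff_algebraMap_injective]
    exact Subtype.val_injective
  have j5 : FiniteDimensional (FractionRing ψ.range) K := finiteDimensional_frac ψ.range C K
  refine isSeparable_of_closure p (L := FractionRing ψ.range) (K := K) ?_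
  have hSmem : ∀ s : ψ.range, algebraMap C K (s : C) ∈
      Subfield.closure (Set.range (frobenius K p) ∪
      Set.range (algebraMap (FractionRing ψ.range) K)) := by
    intro s
    refine Subfield.subset_closure (Or.inr ⟨algebraMap ψ.range _ s, ?_⟩)
    rw [← IsScalarTower.algebraMap_apply, IsScalarTower.algebraMap_apply ψ.range C K]
    rfl
  rw [eq_top_iff, ← htop, Subfield.closure_le]
  rintro f (hf | ⟨i, rfl⟩ | ⟨i, rfl⟩)
  · exact Subfield.subset_closure (Or.inl hf)
  · exact hSmem ⟨algebraMap κ C (b i), ψ.range.algebraMap_mem (b i)⟩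
  · have h1 : algebraMap C K (u' i) =
        algebraMap C K (x i) / frobenius K p (algebraMap C K (y i)) - 1 := by
      have h2 : algebraMap C K (y i) ≠ 0 := by
        intro h
        exact hy0 i (IsFractionRing.injective C K (h.trans (map_zero _).symm))
      rw [frobenius_def, eq_sub_iff_add_eq, eq_div_iff (pow_ne_zero p h2)]
      simp only [x, map_mul, map_pow, map_add, map_one]
      ring
    change algebraMap C K (u' i) ∈ Subfield.closure _
    rw [h1]
    exact sub_mem (div_mem (hSmem ⟨x i, ⟨_, hψ i⟩⟩)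
      (Subfield.subset_closure (Or.inl ⟨_, rfl⟩))) (one_mem _)

/-- Cohen-Gabber, for a residue field which is finitely generated over a perfect field. -/
theorem exists_separable_base2 (p : ℕ) [Fact p.Prime] (k C : Type u) [Field k] [PerfectField k]
    [CommRing C] [IsDomain C] [CharP C p] [IsLocalRing C] [IsNoetherianRing C]
    [IsAdicComplete (maximalIdeal C) C] [Algebra k C]
    [Algebra.EssFiniteType k (ResidueField C)] (hm : maximalIdeal C ≠ ⊥)
    {d : ℕ} (hd : ringKrullDim C = d) (K : Type u) [Field K] [Algebra C K] [IsFractionRing C K] :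
    ∃ σ : ResidueField C →+* C, (∀ a, residue C (σ a) = a) ∧
      (∀ a : k, σ (algebraMap k (ResidueField C) a) = algebraMap k C a) ∧
      ∃ S : Subring C, (∀ a, σ a ∈ S) ∧ Module.Finite S C ∧ (∃ _ : IsRegularLocalRing S,
        ringKrullDim S = d ∧ (∀ s : S, s ∈ maximalIdeal S ↔ (s : C) ∈ maximalIdeal C)) ∧
      ∀ (_ : Algebra (FractionRing S) K), IsScalarTower S (FractionRing S) K →
        Algebra.IsSeparable (FractionRing S) K := by
  classical
  have iK : CharP K p :=
    (RingHom.charP_iff (algebraMap C K) (IsFractionRing.injective C K) p).1 inferInstance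
  have iκ : CharP (ResidueField C) p := (CharP.charP_iff_prime_eq_zero Fact.out).2 (by
    have h1 : (p : C) = 0 := CharP.cast_eq_zero C p
    have h2 := congrArg (residue C) h1
    rwa [map_natCast, map_zero] at h2)
  obtain ⟨c, β, hind, hsep, hfin⟩ := exists_sep_basis k (ResidueField C)
  have hβ := fun a => pow_basis p k (ResidueField C) β hsep a
  choose β₀ hβ₀ using fun i => residue_surjective (R := C) (β i)
  have hβ₀' : (fun i => residue C (β₀ i)) = β := funext hβ₀
  -- the first coefficient field
  obtain ⟨σ₀, h0, -, -⟩ := exists_coeff_ext C k β₀ (by rw [hβ₀']; exact hind)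
    (by rw [hβ₀']; exact hsep) (by rw [hβ₀']; exact hfin)
  have hK : FiniteDimensional (frobenius K p).fieldRange K ∧
      Module.finrank (frobenius K p).fieldRange K ≤ p ^ (c + d) := by
    let _ : Algebra (ResidueField C) C := σ₀.toAlgebra
    refine finrank_frob_complete p (ResidueField C) C (fun a => ⟨residue C a, ?_⟩) hd β hβ K
    rw [← residue_eq_zero_iff, map_sub]
    change residue C a - residue C (σ₀ (residue C a)) = 0
    rw [h0, sub_self]
  obtain ⟨t, ht, ht0⟩ := Submodule.exists_mem_ne_zero_of_ne_bot hm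
  have ht0' : algebraMap C K t ≠ 0 := fun h =>
    ht0 (IsFractionRing.injective C K (h.trans (map_zero _).symm))
  have hMtop : Subfield.closure (Set.range (frobenius K p) ∪
      algebraMap C K '' (maximalIdeal C : Set C)) = ⊤ := by
    have hp0 : p ≠ 0 := (Fact.out : p.Prime).ne_zero
    have h1 : ∀ a : C, algebraMap C K a ∈ Subfield.closure (Set.range (frobenius K p) ∪
      algebraMap C K '' (maximalIdeal C : Set C)) := by
      intro a
      have h2 : algebraMap C K a = algebraMap C K (a * t ^ p) /
          frobenius K p (algebraMap C K t) := by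
        rw [frobenius_def, map_mul, map_pow, mul_div_cancel_right₀ _ (pow_ne_zero p ht0')]
      rw [h2]
      exact div_mem (Subfield.subset_closure (Or.inr ⟨_, Ideal.mul_mem_left _ _
        (Ideal.pow_mem_of_mem _ ht p (Nat.pos_of_ne_zero hp0)), rfl⟩))
        (Subfield.subset_closure (Or.inl ⟨_, rfl⟩))
    rw [eq_top_iff]
    intro f _
    obtain ⟨a, b, hb, rfl⟩ := IsFractionRing.div_surjective (A := C) f
    exact div_mem (h1 a) (h1 b)
  obtain ⟨l, u, hl, hu, htop⟩ := exists_gens2 p hK.1 hK.2
    (algebraMap C K '' (maximalIdeal C : Set C)) ⟨0, zero_mem _, map_zero _⟩ hMtop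
    (fun i => algebraMap C K (β₀ i))
  choose l' hl' hl'' using hl
  choose u' hu' hu'' using hu
  -- the second coefficient field
  have hβ₁' : (fun i => residue C (β₀ i + l' i)) = β := by
    funext i
    rw [map_add, hβ₀, (residue_eq_zero_iff (l' i)).2 (hl' i), add_zero]
  obtain ⟨σ, h1, h2, h3⟩ := exists_coeff_ext C k (fun i => β₀ i + l' i)
    (by rw [hβ₁']; exact hind) (by rw [hβ₁']; exact hsep) (by rw [hβ₁']; exact hfin)
  refine ⟨σ, h1, h2, ?_⟩
  have h4 : ∀ i, σ (β i) = β₀ i + l' i := by
    intro i
    rw [← h3 i]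
    exact congrArg σ (congrFun hβ₁' i).symm
  let _ : Algebra (ResidueField C) C := σ.toAlgebra
  obtain ⟨S, hS1, ⟨hS2, hS3⟩, hS4⟩ := exists_base_of_gens p (ResidueField C) C
    (fun a => ⟨residue C a, by
      rw [← residue_eq_zero_iff, map_sub]
      change residue C a - residue C (σ (residue C a)) = 0
      rw [h1, sub_self]⟩) hd K β u' hu' (by
      have e1 : (fun i => algebraMap C K (algebraMap (ResidueField C) C (β i))) =
          fun i => algebraMap C K (β₀ i) + l i := by
        funext i
        rw [← hl'', ← map_add]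
        exact congrArg _ (h4 i)
      have e2 : (fun i => algebraMap C K (u' i)) = u := funext hu''
      rw [e1, e2]
      exact htop)
  exact ⟨S.toSubring, fun a => S.algebraMap_mem a, hS1, ⟨hS2, hS3⟩, hS4⟩

end Pool.Agent.LCD
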